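import Pool.Agent.Lib_helper19.QS.Conv

/-!
# MP_859019, one side a qubit pair: CQ from the maximum principle
-/

set_option autoImplicit false

open scoped BigOperators ComplexOrder Kronecker MatrixOrder Topology
open MeasureTheory Set Matrix Filter

namespace Pool.Agent.Lib_helper19.QS

open Pool.Agent.RC Pool.Agent.LDK Pool.Agent.LDK.DUAL Pool.Agent.QB

variable {ι κ : Type} [Fintype ι] [DecidableEq ι] [Fintype κ] [DecidableEq κ]

/-- the maximum principle (helper69's `MPGStmt`) -/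
def MPG0 : Prop :=
  ∀ (p : ℝ), 3 < p → ∀ (J : Type) [Fintype J] (κ : J → Type) [∀ j, Fintype (κ j)]
    [∀ j, DecidableEq (κ j)] (S T : ∀ j, Matrix (κ j) (κ j) ℂ) (c : J → ℝ) (c0 : ℝ),
    (∀ j, (S j).PosSemidef) → (∀ j, (T j).PosSemidef) →
    (∀ j, 0 ≤ c j ∨ S j * T j = T j * S j) →
    ∀ Φ : ℝ → ℝ → ℝ, (∀ a γ, Φ a γ = ∑ j, c j * Hp p a (1 - a) γ (S j) (T j) +
      c0 * ((1 - γ) ^ p * (a ^ p + (1 - a) ^ p))) →
    (∀ γ ∈ Icc (0 : ℝ) 1, 0 ≤ Φ 0 γ) → (∀ γ ∈ Icc (0 : ℝ) 1, 0 ≤ Φ 1 γ) →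
    (∀ a ∈ Icc (0 : ℝ) 1, 0 ≤ Φ a 0) → (∀ a ∈ Icc (0 : ℝ) 1, 0 ≤ Φ a 1) →
    ∀ a ∈ Icc (0 : ℝ) 1, ∀ γ ∈ Icc (0 : ℝ) 1, 0 ≤ Φ a γ

lemma tp_one (p : ℝ) : tp p (1 : Matrix κ κ ℂ) = Fintype.card κ := by
  have h : (1 : Matrix κ κ ℂ) = 1 * Matrix.diagonal (fun _ : κ => ((1 : ℝ) : ℂ)) * (1 : Matrix κ κ ℂ)ᴴ := by
    simp
  unfold tp
  rw [h, TRF.trF_conj _ (by simp)]
  simp

lemma tp_zero {p : ℝ} (hp : 0 < p) : tp p (0 : Matrix κ κ ℂ) = 0 := by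
  have h : (0 : Matrix κ κ ℂ) = 1 * Matrix.diagonal (fun _ : κ => ((0 : ℝ) : ℂ)) * (1 : Matrix κ κ ℂ)ᴴ := by
    simp
  unfold tp
  rw [h, TRF.trF_conj _ (by simp)]
  simp [Real.zero_rpow hp.ne']

lemma tp_smul_one {p : ℝ} {c : ℝ} (hc : 0 ≤ c) :
    tp p ((c : ℂ) • (1 : Matrix κ κ ℂ)) = c ^ p * Fintype.card κ := by
  rw [tp_smul Matrix.PosSemidef.one hc, tp_one]

lemma one_mul_star : (1 : Matrix κ κ ℂ) * (1 : Matrix κ κ ℂ)ᴴ = 1 := by simp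

lemma zero_mul_star : (0 : Matrix κ κ ℂ) * (0 : Matrix κ κ ℂ)ᴴ = 0 := by simp

section vals

variable {p : ℝ}

lemma Hp11_orth (hp : 0 < p) {α β γ : ℝ} (h0 : 0 ≤ α) (h1 : 0 ≤ β) (h2 : 0 ≤ γ) (h3 : γ ≤ 1)
    (hz : γ * (α * β) = 0) :
    Hp p α β γ (1 : Matrix κ κ ℂ) 1 = (α ^ p + β ^ p) * Fintype.card κ := by
  have h := Hp_eq_HX hp h0 h1 h2 h3 (1 : Matrix κ κ ℂ) 1
  rw [one_mul_star, hz, HX_orth hp _ _ h0 h1, one_mul_star, tp_one] at h
  rw [h]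
  ring

lemma Hp11_par (hp : 0 < p) {α β : ℝ} (h0 : 0 ≤ α) (h1 : 0 ≤ β) :
    Hp p α β 1 (1 : Matrix κ κ ℂ) 1 = (α + β) ^ p * Fintype.card κ := by
  have h := Hp_eq_HX hp h0 h1 zero_le_one le_rfl (1 : Matrix κ κ ℂ) 1
  rw [one_mul_star, one_mul, HX_par hp _ _ h0 h1, one_mul_star, ← add_smul, ← Complex.ofReal_add,
    tp_smul_one (add_nonneg h0 h1)] at h
  exact h

lemma Hp11_half (hp : 0 < p) {t : ℝ} (h0 : 0 ≤ t) (h1 : t ≤ 1) :
    Hp p (1 / 2) (1 / 2) (t ^ 2) (1 : Matrix κ κ ℂ) 1 =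
      (1 / 2) ^ p * (2 * cq p t) * Fintype.card κ := by
  have h := Hp_eq_HX (α := 1 / 2) (β := 1 / 2) hp (by norm_num) (by norm_num) (sq_nonneg t)
    (by nlinarith) (1 : Matrix κ κ ℂ) 1
  have ht : ((t : ℂ) • (1 : Matrix κ κ ℂ)).IsHermitian := herm_smul Matrix.isHermitian_one t
  have h4 : HX p (1 : Matrix κ κ ℂ) 1 1 1 (t ^ 2) = (2 * cq p t) * Fintype.card κ := by
    unfold HX tp Gm
    rw [Real.sqrt_sq h0]
    simp only [Matrix.conjTranspose_one, Matrix.mul_one, Complex.ofReal_one, one_smul]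
    rw [trF_circ _ Matrix.isHermitian_one ht]
    have e1 : (1 : Matrix κ κ ℂ) + (t : ℂ) • 1 = ((1 + t : ℝ) : ℂ) • 1 := by
      push_cast
      rw [add_smul, one_smul]
    have e2 : (1 : Matrix κ κ ℂ) - (t : ℂ) • 1 = ((1 - t : ℝ) : ℂ) • 1 := by
      push_cast
      rw [sub_smul, one_smul]
    have e3 := tp_smul_one (p := p) (κ := κ) (c := 1 + t) (by linarith)
    have e4 := tp_smul_one (p := p) (κ := κ) (c := 1 - t) (by linarith)
    unfold tp at e3 e4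
    rw [e1, e2, e3, e4, cq]
    ring
  rw [one_mul_star, HX_half _ _ h0 h1, h4] at h
  rw [h]
  ring

lemma Hp10 (hp : 0 < p) {α β γ : ℝ} (h0 : 0 ≤ α) (h1 : 0 ≤ β) (h2 : 0 ≤ γ) (h3 : γ ≤ 1) :
    Hp p α β γ (1 : Matrix κ κ ℂ) 0 = α ^ p * Fintype.card κ := by
  have h := Hp_eq_HX hp h0 h1 h2 h3 (1 : Matrix κ κ ℂ) 0
  rw [one_mul_star, zero_mul_star] at h
  rw [h]
  have e := HX_orth hp (1 : Matrix κ κ ℂ) (0 : Matrix κ κ ℂ) h0 h1
  rw [one_mul_star, zero_mul_star, tp_one, tp_zero hp, mul_zero, add_zero] at e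
  rw [← e]
  unfold HX Gm
  congr 1
  simp

lemma Hp01 (hp : 0 < p) {α β γ : ℝ} (h0 : 0 ≤ α) (h1 : 0 ≤ β) (h2 : 0 ≤ γ) (h3 : γ ≤ 1) :
    Hp p α β γ (0 : Matrix κ κ ℂ) 1 = β ^ p * Fintype.card κ := by
  have h := Hp_eq_HX hp h0 h1 h2 h3 (0 : Matrix κ κ ℂ) 1
  rw [one_mul_star, zero_mul_star] at h
  rw [h]
  have e := HX_orth hp (0 : Matrix κ κ ℂ) (1 : Matrix κ κ ℂ) h0 h1
  rw [one_mul_star, zero_mul_star, tp_one, tp_zero hp, mul_zero, zero_add] at e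
  rw [← e]
  unfold HX Gm
  congr 1
  simp

end vals

/-- the comparison principle for one family -/
theorem mp_HX (hM : MPG0) {p : ℝ} (hp : 3 < p) [Nonempty κ] (X Y : Matrix κ ι ℂ) :
    MP p (HX p X Y) := by
  intro ρ η μ hμ hpar horth t ht0 ht1
  have hp0 : 0 < p := by linarith
  set n : ℝ := (Fintype.card κ : ℝ) with hn
  have hn0 : n ≠ 0 := by rw [hn]; exact_mod_cast Fintype.card_ne_zero
  set S : Fin 5 → Matrix κ κ ℂ := ![X * Xᴴ, Y * Yᴴ, 1, 1, 0] with hS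
  set T : Fin 5 → Matrix κ κ ℂ := ![Y * Yᴴ, X * Xᴴ, 1, 0, 1] with hT
  set c : Fin 5 → ℝ := ![1 / 2, 1 / 2, -ρ / n, (μ - η) / n, (μ - η) / n] with hc
  set Φ : ℝ → ℝ → ℝ := fun a γ => ∑ j, c j * Hp p a (1 - a) γ (S j) (T j) +
      (-μ) * ((1 - γ) ^ p * (a ^ p + (1 - a) ^ p)) with hΦ
  -- the value of `Φ`
  have hval : ∀ a γ : ℝ, 0 ≤ a → a ≤ 1 → 0 ≤ γ → γ ≤ 1 →
      Φ a γ = (HX p X Y a (1 - a) (γ * (a * (1 - a))) + HX p X Y (1 - a) a (γ * (a * (1 - a)))) / 2 -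
        ρ * (Hp p a (1 - a) γ (1 : Matrix κ κ ℂ) 1 / n) + (μ - η) * (a ^ p + (1 - a) ^ p) -
        μ * ((1 - γ) ^ p * (a ^ p + (1 - a) ^ p)) := by
    intro a γ h0 h1 h2 h3
    have h1' : 0 ≤ 1 - a := by linarith
    have e1 := Hp_eq_HX hp0 h0 h1' h2 h3 X Y
    have e2 := Hp_eq_HX hp0 h0 h1' h2 h3 Y X
    rw [← HX_swap] at e2
    have e3 := Hp10 (κ := κ) hp0 h0 h1' h2 h3
    have e4 := Hp01 (κ := κ) hp0 h0 h1' h2 h3
    simp only [hΦ, Fin.sum_univ_five]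
    simp only [hS, hT, hc, Matrix.cons_val]
    rw [e1, e2, e3, e4, ← hn]
    field_simp
    ring
  have hpow : ∀ x : ℝ, 0 ≤ x → x ≤ 1 → x ^ p ≤ 1 := fun x h0 h1 => Real.rpow_le_one h0 h1 hp0.le
  have key := hM p hp (Fin 5) (fun _ => κ) S T c (-μ) ?_ ?_ ?_ Φ (fun a γ => rfl) ?_ ?_ ?_ ?_
    (1 / 2) ⟨by norm_num, by norm_num⟩ (t ^ 2) ⟨sq_nonneg t, by nlinarith⟩
  · -- conclusion
    rw [hval _ _ (by norm_num) (by norm_num) (sq_nonneg t) (by nlinarith)] at key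
    have e12 : (1 : ℝ) - 1 / 2 = 1 / 2 := by norm_num
    rw [e12, HX_half X Y ht0 ht1, Hp11_half hp0 ht0 ht1, ← hn] at key
    set q : ℝ := (1 / 2 : ℝ) ^ p with hq
    have hqpos : 0 < q := Real.rpow_pos_of_pos (by norm_num) p
    have e5 : ρ * (q * (2 * cq p t) * n / n) = ρ * (q * (2 * cq p t)) := by
      rw [mul_div_assoc, div_self hn0, mul_one]
    rw [e5] at key
    have e6 : 0 ≤ q * (HX p X Y 1 1 (t ^ 2) - ρ * (2 * cq p t) + (μ - η) * 2 -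
        μ * ((1 - t ^ 2) ^ p * 2)) := by
      refine le_trans key (le_of_eq ?_)
      ring
    have e7 := nonneg_of_mul_nonneg_right e6 hqpos
    linarith
  · intro j
    fin_cases j
    · exact Matrix.posSemidef_self_mul_conjTranspose X
    · exact Matrix.posSemidef_self_mul_conjTranspose Y
    · exact Matrix.PosSemidef.one
    · exact Matrix.PosSemidef.one
    · exact Matrix.PosSemidef.zero
  · intro j
    fin_cases j
    · exact Matrix.posSemidef_self_mul_conjTranspose Y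
    · exact Matrix.posSemidef_self_mul_conjTranspose X
    · exact Matrix.PosSemidef.one
    · exact Matrix.PosSemidef.zero
    · exact Matrix.PosSemidef.one
  · intro j
    fin_cases j
    · left; simp [hc]
    · left; simp [hc]
    · right; simp [hS, hT]
    · right; simp [hS, hT]
    · right; simp [hS, hT]
  · -- `a = 0`
    rintro γ ⟨h2, h3⟩
    rw [hval 0 γ le_rfl zero_le_one h2 h3, Hp11_orth hp0 le_rfl (by norm_num) h2 h3 (by ring), ← hn]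
    have h := horth 0 1 le_rfl zero_le_one (by norm_num)
    have hg := hpow (1 - γ) (by linarith) (by linarith)
    simp only [sub_zero, mul_zero, Real.zero_rpow hp0.ne', Real.one_rpow, zero_add,
      mul_one, one_mul] at h ⊢
    rw [div_self hn0]
    have h5 : μ * (1 - γ) ^ p ≤ μ * 1 := mul_le_mul_of_nonneg_left hg hμ
    linarith
  · -- `a = 1`
    rintro γ ⟨h2, h3⟩
    rw [hval 1 γ zero_le_one le_rfl h2 h3, Hp11_orth hp0 zero_le_one (by norm_num) h2 h3 (by ring),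
      ← hn]
    have h := horth 1 0 zero_le_one le_rfl (by norm_num)
    have hg := hpow (1 - γ) (by linarith) (by linarith)
    simp only [sub_self, mul_zero, Real.zero_rpow hp0.ne', Real.one_rpow, add_zero,
      mul_one, one_mul] at h ⊢
    rw [div_self hn0]
    have h5 : μ * (1 - γ) ^ p ≤ μ * 1 := mul_le_mul_of_nonneg_left hg hμ
    linarith
  · -- `γ = 0`
    rintro a ⟨h0, h1⟩
    have h1' : 0 ≤ 1 - a := by linarith
    rw [hval a 0 h0 h1 le_rfl zero_le_one, Hp11_orth hp0 h0 h1' le_rfl zero_le_one (by ring), ← hn]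
    have h := horth a (1 - a) h0 h1' (by linarith)
    rw [sub_zero, Real.one_rpow, one_mul, zero_mul, mul_div_assoc, div_self hn0, mul_one]
    linarith
  · -- `γ = 1`
    rintro a ⟨h0, h1⟩
    have h1' : 0 ≤ 1 - a := by linarith
    rw [hval a 1 h0 h1 zero_le_one le_rfl, Hp11_par hp0 h0 h1', ← hn]
    have h := hpar a (1 - a) h0 h1' (by linarith)
    rw [sub_self, Real.zero_rpow hp0.ne', zero_mul, mul_zero, one_mul, mul_div_assoc, div_self hn0,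
      mul_one]
    have e : a + (1 - a) = 1 := by ring
    rw [e] at h ⊢
    linarith

/-- CQ (helper69's `CQStmt`) -/
theorem cqStmt (hM : MPG0) : ∀ (p : ℝ), 3 < p → ∀ (κ : Type) [Fintype κ] [DecidableEq κ]
    (A D : Matrix κ κ ℂ), IsPsdPair A D → ∀ v : ℝ, 0 ≤ v → v ≤ 1 →
    (cc p v - 1) * G p A D ≤ (2 ^ (p - 1) - 1) * G p A ((v : ℂ) • D) := by
  intro p hp κ _ _ A D h v h0 h1
  obtain ⟨Y, Z, hY, hZ⟩ := exists_YZ h
  rcases isEmpty_or_nonempty κ with he | hne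
  · have hz : ∀ M : Matrix κ κ ℂ, trF (fun x => x ^ p) M = 0 := by
      intro M
      unfold trF
      split_ifs
      · simp
      · rfl
    unfold G
    simp [hz]
  · have m1 := mp_HX hM hp Zᴴ Yᴴ
    have m2 := mp_HX hM hp (fromRows Y Z) (fromRows Y (-Z))
    exact cq_of_MP (by linarith) h hY hZ m1 m2 h0 h1

end Pool.Agent.Lib_helper19.QS
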