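import Mathlib

/-!
# MP_859019, one side a qubit pair: the bootstrap for commuting second sides (scalar part)

`y t = (Tr (A + t D)^p + Tr (A - t D)^p) / 2` lies above the curve of the scalar pair with the
same end values. The two families `H1`, `H2` are dual to each other.
-/

set_option autoImplicit false

namespace Pool.Agent.Lib_helper19.QS

/-- `((1 + v)^p + (1 - v)^p) / 2` -/
noncomputable def cq (p v : ℝ) : ℝ := ((1 + v) ^ p + (1 - v) ^ p) / 2

/-- the comparison principle for a family `h`, evaluated at `(1, 1, t²)` -/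
def MP (p : ℝ) (h : ℝ → ℝ → ℝ → ℝ) : Prop :=
  ∀ ρ η μ : ℝ, 0 ≤ μ →
    (∀ al be : ℝ, 0 ≤ al → 0 ≤ be → 0 < al + be →
      ρ * (al + be) ^ p + (η - μ) * (al ^ p + be ^ p) ≤ (h al be (al * be) + h be al (al * be)) / 2) →
    (∀ al be : ℝ, 0 ≤ al → 0 ≤ be → 0 < al + be →
      (ρ + η) * (al ^ p + be ^ p) ≤ (h al be 0 + h be al 0) / 2) →
    ∀ t : ℝ, 0 ≤ t → t ≤ 1 →
      2 * ρ * cq p t + 2 * η - 2 * μ * (1 - (1 - t ^ 2) ^ p) ≤ h 1 1 (t ^ 2)

lemma cq_zero (p : ℝ) : cq p 0 = 1 := by simp [cq]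

lemma cq_one (p : ℝ) (hp : 0 < p) : cq p 1 = 2 ^ (p - 1) := by
  unfold cq
  rw [show (1 : ℝ) - 1 = 0 by ring, Real.zero_rpow hp.ne', show (1 : ℝ) + 1 = 2 by ring,
    Real.rpow_sub (by norm_num), Real.rpow_one]
  ring

lemma two_rpow (p : ℝ) : (2 : ℝ) ^ p = 2 * 2 ^ (p - 1) := by
  rw [Real.rpow_sub_one (by norm_num)]; ring

lemma one_lt_c1 (p : ℝ) (hp : 1 < p) : (1 : ℝ) < 2 ^ (p - 1) :=
  Real.one_lt_rpow (by norm_num) (by linarith)

/-- `(al^p + be^p) 2^(p-1) = s^p c(t)` -/
lemma sum_eq (p al be : ℝ) (ha : 0 ≤ al) (hb : 0 ≤ be) (hs : 0 < al + be) :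
    2 ^ (p - 1) * (al ^ p + be ^ p) = (al + be) ^ p * cq p (|al - be| / (al + be)) := by
  have key : ∀ a b : ℝ, 0 ≤ a → 0 ≤ b → 0 < a + b → b ≤ a →
      2 ^ (p - 1) * (a ^ p + b ^ p) = (a + b) ^ p * cq p (|a - b| / (a + b)) := by
    intro a b ha hb hs hab
    have h1 : (0 : ℝ) ≤ 1 + (a - b) / (a + b) := by
      have := div_nonneg (sub_nonneg.2 hab) hs.le
      linarith
    have e1 : (a + b) * (1 + (a - b) / (a + b)) = 2 * a := by field_simp; ring
    have e2 : (a + b) * (1 - (a - b) / (a + b)) = 2 * b := by field_simp; ring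
    have h2 : (0 : ℝ) ≤ 1 - (a - b) / (a + b) := by
      have : (a - b) / (a + b) ≤ 1 := by rw [div_le_one hs]; linarith
      linarith
    rw [abs_of_nonneg (sub_nonneg.2 hab), cq]
    have e3 : (a + b) ^ p * (1 + (a - b) / (a + b)) ^ p = 2 ^ p * a ^ p := by
      rw [← Real.mul_rpow hs.le h1, e1, Real.mul_rpow (by norm_num) ha]
    have e4 : (a + b) ^ p * (1 - (a - b) / (a + b)) ^ p = 2 ^ p * b ^ p := by
      rw [← Real.mul_rpow hs.le h2, e2, Real.mul_rpow (by norm_num) hb]
    rw [two_rpow] at e3 e4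
    linear_combination (-1 / 2) * e3 - (1 / 2) * e4
  rcases le_total be al with h | h
  · exact key al be ha hb hs h
  · have := key be al hb ha (by linarith) h
    rw [abs_sub_comm, add_comm be al, add_comm (be ^ p)] at this
    exact this

lemma ratio_mem (al be : ℝ) (ha : 0 ≤ al) (hb : 0 ≤ be) (hs : 0 < al + be) :
    0 ≤ |al - be| / (al + be) ∧ |al - be| / (al + be) ≤ 1 := by
  refine ⟨div_nonneg (abs_nonneg _) hs.le, ?_⟩
  rw [div_le_one hs, abs_le]
  constructor <;> linarith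

/-- the bootstrap -/
theorem cq_abs (p : ℝ) (hp : 1 < p) (y : ℝ → ℝ) (hy : ContinuousOn y (Set.Icc 0 1))
    (H1 H2 : ℝ → ℝ → ℝ → ℝ)
    (a1 : ∀ al be : ℝ, 0 ≤ al → 0 ≤ be → 0 < al + be →
      (H1 al be (al * be) + H1 be al (al * be)) / 2 = (al + be) ^ p * y (|al - be| / (al + be)))
    (a2 : ∀ al be : ℝ, 0 ≤ al → 0 ≤ be → 0 < al + be →
      (H1 al be 0 + H1 be al 0) / 2 = (al ^ p + be ^ p) * y 1)
    (b1 : ∀ al be : ℝ, 0 ≤ al → 0 ≤ be → 0 < al + be →
      (H2 al be (al * be) + H2 be al (al * be)) / 2 =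
        (al + be) ^ p * H1 1 1 ((|al - be| / (al + be)) ^ 2))
    (b2 : ∀ al be : ℝ, 0 ≤ al → 0 ≤ be → 0 < al + be →
      (H2 al be 0 + H2 be al 0) / 2 = (al ^ p + be ^ p) * (2 ^ p * y 0))
    (b3 : ∀ t : ℝ, 0 ≤ t → t ≤ 1 → H2 1 1 (t ^ 2) = 2 * 2 ^ p * y t)
    (m1 : MP p H1) (m2 : MP p H2) (t : ℝ) (ht0 : 0 ≤ t) (ht1 : t ≤ 1) :
    (2 ^ (p - 1) - cq p t) * y 0 + (cq p t - 1) * y 1 ≤ (2 ^ (p - 1) - 1) * y t := by
  set c1 : ℝ := 2 ^ (p - 1) with hc1
  have hc : 1 < c1 := one_lt_c1 p hp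
  have hc' : 0 < c1 - 1 := by linarith
  have hp2 : (2 : ℝ) ^ p = 2 * c1 := two_rpow p
  have hcc : Continuous (cq p) := by
    unfold cq
    have h1 : Continuous fun v : ℝ => (1 + v) ^ p :=
      (continuous_const.add continuous_id).rpow_const fun x => Or.inr (by linarith)
    have h2 : Continuous fun v : ℝ => (1 - v) ^ p :=
      (continuous_const.sub continuous_id).rpow_const fun x => Or.inr (by linarith)
    exact (h1.add h2).div_const 2
  -- the defect
  set η : ℝ := (y 1 - y 0) / (c1 - 1) with hη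
  have hη' : η * (c1 - 1) = y 1 - y 0 := by rw [hη]; field_simp
  set F : ℝ → ℝ := fun s => y 0 - η + η * cq p s - y s with hF
  have hFc : ContinuousOn F (Set.Icc 0 1) :=
    ((continuousOn_const.add (continuousOn_const.mul hcc.continuousOn)).sub hy)
  have hF1 : F 1 = 0 := by
    simp only [hF]
    rw [cq_one p (by linarith), ← hc1]
    linear_combination hη'
  obtain ⟨t0, ht0m, hmax⟩ := isCompact_Icc.exists_isMaxOn (Set.nonempty_Icc.2 zero_le_one) hFc
  have hle : ∀ s : ℝ, 0 ≤ s → s ≤ 1 → F s ≤ F t0 := fun s h0 h1 => hmax ⟨h0, h1⟩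
  have hM0 : 0 ≤ F t0 := by
    have := hle 1 zero_le_one le_rfl
    rwa [hF1] at this
  -- the value of the maximum is zero
  have hM : F t0 = 0 := by
    by_contra hne
    have hpos : 0 < F t0 := lt_of_le_of_ne hM0 (Ne.symm hne)
    set M : ℝ := F t0 with hMdef
    -- step 1
    have s1 : ∀ s : ℝ, 0 ≤ s → s ≤ 1 →
        2 * (y 0 - η - M) * cq p s + 2 * (η * c1) ≤ H1 1 1 (s ^ 2) := by
      have := m1 (y 0 - η - M) (η * c1) 0 le_rfl ?_ ?_
      · intro s h0 h1
        have := this s h0 h1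
        linarith
      · intro al be ha hb hs
        rw [a1 al be ha hb hs, sub_zero]
        obtain ⟨r0, r1⟩ := ratio_mem al be ha hb hs
        have e := sum_eq p al be ha hb hs
        have h3 := hle _ r0 r1
        simp only [hF] at h3
        have hsp : 0 < (al + be) ^ p := Real.rpow_pos_of_pos hs p
        have h4 := mul_le_mul_of_nonneg_left h3 hsp.le
        have h5 : η * c1 * (al ^ p + be ^ p) = η * ((al + be) ^ p * cq p (|al - be| / (al + be))) := by
          rw [← e]; ring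
        rw [h5]
        linarith
      · intro al be ha hb hs
        rw [a2 al be ha hb hs]
        have h3 : 0 ≤ al ^ p + be ^ p := add_nonneg (Real.rpow_nonneg ha p) (Real.rpow_nonneg hb p)
        have h4 : y 0 - η - M + η * c1 ≤ y 1 := by linarith
        have := mul_le_mul_of_nonneg_left h4 h3
        linarith
    -- the end values of the dual curve
    have z0 : H1 1 1 0 = 2 * y 1 := by
      have := a2 1 1 zero_le_one zero_le_one (by norm_num)
      rw [Real.one_rpow] at this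
      linarith
    have z1 : H1 1 1 1 = 2 ^ p * y 0 := by
      have := a1 1 1 zero_le_one zero_le_one (by norm_num)
      rw [sub_self, abs_zero, zero_div, one_mul, show (1 : ℝ) + 1 = 2 by norm_num] at this
      linarith
    -- step 2
    set θ : ℝ := (2 * c1 * y 0 - 2 * y 1) / (c1 - 1) with hθ
    have hθ' : θ * (c1 - 1) = 2 * c1 * y 0 - 2 * y 1 := by rw [hθ]; field_simp
    have s2 : ∀ s : ℝ, 0 ≤ s → s ≤ 1 →
        2 * (2 * y 1 - θ) * cq p s + 2 * (θ * c1) - 2 * (2 * c1 * M) * (1 - (1 - s ^ 2) ^ p) ≤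
          2 * 2 ^ p * y s := by
      have := m2 (2 * y 1 - θ) (θ * c1) (2 * c1 * M) (by positivity) ?_ ?_
      · intro s h0 h1
        have := this s h0 h1
        rw [b3 s h0 h1] at this
        exact this
      · intro al be ha hb hs
        rw [b1 al be ha hb hs]
        obtain ⟨r0, r1⟩ := ratio_mem al be ha hb hs
        have e := sum_eq p al be ha hb hs
        have h3 := s1 _ r0 r1
        have hsp : 0 < (al + be) ^ p := Real.rpow_pos_of_pos hs p
        have h4 := mul_le_mul_of_nonneg_left h3 hsp.le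
        refine le_trans (le_of_eq ?_) h4
        have h5 : (θ * c1 - 2 * c1 * M) * (al ^ p + be ^ p) =
            (θ - 2 * M) * ((al + be) ^ p * cq p (|al - be| / (al + be))) := by
          rw [← e]; ring
        rw [h5]
        have h6 : θ = 2 * y 0 - 2 * η := by
          have : θ * (c1 - 1) = (2 * y 0 - 2 * η) * (c1 - 1) := by rw [hθ']; linear_combination 2 * hη'
          exact mul_right_cancel₀ hc'.ne' this
        have h7 : 2 * y 1 - θ = 2 * (η * c1) := by
          rw [h6]; linear_combination (-2) * hη'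
        rw [h7, h6]
        ring
      · intro al be ha hb hs
        rw [b2 al be ha hb hs, hp2]
        refine le_of_eq ?_
        linear_combination (al ^ p + be ^ p) * hθ'
    -- step 3
    have h1 := s2 t0 ht0m.1 ht0m.2
    have hlt : t0 < 1 := by
      rcases eq_or_lt_of_le ht0m.2 with h | h
      · rw [hMdef, h, hF1] at hpos
        exact absurd hpos (lt_irrefl _)
      · exact h
    have hpp : 0 < (1 - t0 ^ 2) ^ p := by
      apply Real.rpow_pos_of_pos
      nlinarith [ht0m.1]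
    have h6 : θ = 2 * y 0 - 2 * η := by
      have : θ * (c1 - 1) = (2 * y 0 - 2 * η) * (c1 - 1) := by rw [hθ']; linear_combination 2 * hη'
      exact mul_right_cancel₀ hc'.ne' this
    have h7 : 2 * y 1 - θ = 2 * (η * c1) := by
      rw [h6]; linear_combination (-2) * hη'
    rw [h7, h6, hp2] at h1
    have h8 : M = y 0 - η + η * cq p t0 - y t0 := hMdef
    have h9 : 4 * c1 * M ≤ 4 * c1 * (M * (1 - (1 - t0 ^ 2) ^ p)) := by
      nlinarith [h1]
    have h10 : 0 < 4 * c1 * (M * (1 - t0 ^ 2) ^ p) := by positivity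
    nlinarith [h9, h10]
  have h1 := hle t ht0 ht1
  rw [hM] at h1
  simp only [hF] at h1
  have h2 := mul_le_mul_of_nonneg_left h1 hc'.le
  have h3 : (c1 - 1) * (y 0 - η + η * cq p t - y t) =
      (c1 - 1) * y 0 + (cq p t - 1) * (y 1 - y 0) - (c1 - 1) * y t := by
    linear_combination (cq p t - 1) * hη'
  rw [h3] at h2
  linarith

end Pool.Agent.Lib_helper19.QS
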