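import Pool.Agent.Lib_helper4.LDK.Dual
import Pool.Agent.Lib_helper19.QS.CQabs

/-!
# MP_859019, one side a qubit pair: the bootstrap for commuting second sides (matrix part)

For `A - D = Yᴴ Y`, `A + D = Zᴴ Z` the two dual families are `HX p Zᴴ Yᴴ` and
`HX p (fromRows Y Z) (fromRows Y (-Z))`.
-/

set_option autoImplicit false

open scoped BigOperators ComplexOrder Kronecker MatrixOrder Topology
open MeasureTheory Set Matrix Filter

namespace Pool.Agent.Lib_helper19.QS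

open Pool.Agent.RC Pool.Agent.LDK Pool.Agent.LDK.DUAL

variable {ι κ μ : Type} [Fintype ι] [DecidableEq ι] [Fintype κ] [DecidableEq κ]
  [Fintype μ] [DecidableEq μ]

/-- the Gram matrix of `X ⊗ f₁, Y ⊗ f₂` with `|f₁|² = al`, `|f₂|² = be`, `⟨f₁, f₂⟩ = r` -/
noncomputable def Gm (X Y : Matrix μ ι ℂ) (al be r : ℝ) : Matrix (ι ⊕ ι) (ι ⊕ ι) ℂ :=
  fromBlocks ((al : ℂ) • (Xᴴ * X)) ((r : ℂ) • (Xᴴ * Y)) ((r : ℂ) • (Yᴴ * X)) ((be : ℂ) • (Yᴴ * Y))

/-- the family of the pair of letters `X Xᴴ, Y Yᴴ` -/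
noncomputable def HX (p : ℝ) (X Y : Matrix μ ι ℂ) (al be g : ℝ) : ℝ :=
  tp p (Gm X Y al be (Real.sqrt g))

/-- `(Tr (A + t D)^p + Tr (A - t D)^p) / 2` -/
noncomputable def yf (p : ℝ) (A D : Matrix ι ι ℂ) (t : ℝ) : ℝ :=
  (tp p (A + (t : ℂ) • D) + tp p (A - (t : ℂ) • D)) / 2

lemma herm_smul {M : Matrix ι ι ℂ} (h : M.IsHermitian) (c : ℝ) : ((c : ℂ) • M).IsHermitian := by
  rw [Matrix.IsHermitian, Matrix.conjTranspose_smul, h.eq]
  simp

lemma psd_smul {M : Matrix ι ι ℂ} (h : M.PosSemidef) {c : ℝ} (hc : 0 ≤ c) :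
    ((c : ℂ) • M).PosSemidef := h.smul (by exact_mod_cast hc)

lemma Gm_herm (X Y : Matrix μ ι ℂ) (al be r : ℝ) : (Gm X Y al be r).IsHermitian := by
  refine Matrix.IsHermitian.fromBlocks
    (herm_smul (Matrix.isHermitian_conjTranspose_mul_self X) al) ?_
    (herm_smul (Matrix.isHermitian_conjTranspose_mul_self Y) be)
  rw [Matrix.conjTranspose_smul, Matrix.conjTranspose_mul, Matrix.conjTranspose_conjTranspose]
  simp

theorem trF_neg_off (f : ℝ → ℝ) {M B C N : Matrix ι ι ℂ} (h : (fromBlocks M B C N).IsHermitian) :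
    trF f (fromBlocks M (-B) (-C) N) = trF f (fromBlocks M B C N) := by
  obtain ⟨hM, hB, hC, hN⟩ := Matrix.isHermitian_fromBlocks_iff.1 h
  have h' : (fromBlocks M (-B) (-C) N).IsHermitian := by
    refine Matrix.IsHermitian.fromBlocks hM ?_ hN
    rw [Matrix.conjTranspose_neg, hB]
  rw [TRF.trF_eq_roots f h', TRF.trF_eq_roots f h]
  congr 3
  have e : fromBlocks M (-B) (-C) N = fromBlocks (1 : Matrix ι ι ℂ) 0 0 (-1) *
      (fromBlocks M B C N * fromBlocks (1 : Matrix ι ι ℂ) 0 0 (-1)) := by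
    rw [Matrix.fromBlocks_multiply, Matrix.fromBlocks_multiply]
    simp
  have e2 : fromBlocks (1 : Matrix ι ι ℂ) 0 0 (-1) * fromBlocks (1 : Matrix ι ι ℂ) 0 0 (-1) =
      (1 : Matrix (ι ⊕ ι) (ι ⊕ ι) ℂ) := by
    rw [Matrix.fromBlocks_multiply, ← Matrix.fromBlocks_one]
    simp
  rw [e, Matrix.charpoly_mul_comm, Matrix.mul_assoc, e2, Matrix.mul_one]

lemma ofReal_sqrt_mul (a : ℝ) (ha : 0 ≤ a) :
    ((Real.sqrt a : ℝ) : ℂ) * ((Real.sqrt a : ℝ) : ℂ) = (a : ℂ) := by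
  rw [← Complex.ofReal_mul, Real.mul_self_sqrt ha]

/-- `f₁` and `f₂` parallel -/
theorem HX_par {p : ℝ} (hp : 0 < p) (X Y : Matrix μ ι ℂ) {al be : ℝ} (ha : 0 ≤ al) (hb : 0 ≤ be) :
    HX p X Y al be (al * be) = tp p ((al : ℂ) • (X * Xᴴ) + (be : ℂ) • (Y * Yᴴ)) := by
  set V : Matrix μ (ι ⊕ ι) ℂ :=
    fromCols (((Real.sqrt al : ℝ) : ℂ) • X) (((Real.sqrt be : ℝ) : ℂ) • Y) with hV
  have h1 : V * Vᴴ = (al : ℂ) • (X * Xᴴ) + (be : ℂ) • (Y * Yᴴ) := by
    rw [hV, Matrix.conjTranspose_fromCols_eq_fromRows_conjTranspose, Matrix.fromCols_mul_fromRows]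
    simp only [Matrix.conjTranspose_smul, Matrix.smul_mul, Matrix.mul_smul, smul_smul,
      RCLike.star_def, Complex.conj_ofReal, ofReal_sqrt_mul al ha, ofReal_sqrt_mul be hb]
  have h2 : Vᴴ * V = Gm X Y al be (Real.sqrt (al * be)) := by
    rw [hV, Matrix.conjTranspose_fromCols_eq_fromRows_conjTranspose, Matrix.fromRows_mul_fromCols,
      Gm, Real.sqrt_mul ha]
    simp only [Matrix.conjTranspose_smul, Matrix.smul_mul, Matrix.mul_smul, smul_smul,
      RCLike.star_def, Complex.conj_ofReal, ofReal_sqrt_mul al ha, ofReal_sqrt_mul be hb,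
      Complex.ofReal_mul]
    congr 2
    rw [mul_comm]
  unfold HX tp
  rw [← h1, trF_rpow_mul hp, h2]

/-- `f₁` and `f₂` orthogonal -/
theorem HX_orth {p : ℝ} (hp : 0 < p) (X Y : Matrix μ ι ℂ) {al be : ℝ} (ha : 0 ≤ al) (hb : 0 ≤ be) :
    HX p X Y al be 0 = al ^ p * tp p (X * Xᴴ) + be ^ p * tp p (Y * Yᴴ) := by
  have hx := Matrix.posSemidef_conjTranspose_mul_self X
  have hy := Matrix.posSemidef_conjTranspose_mul_self Y
  have e1 := tp_smul (α := p) hx ha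
  have e2 := tp_smul (α := p) hy hb
  unfold HX tp Gm
  rw [Real.sqrt_zero, Complex.ofReal_zero, zero_smul, zero_smul,
    trF_fromBlocks _ (herm_smul hx.1 al) (herm_smul hy.1 be), trF_rpow_mul hp, trF_rpow_mul hp]
  unfold tp at e1 e2
  rw [e1, e2]

section pair

variable {p : ℝ} {A D Y Z : Matrix ι ι ℂ}

lemma psd_add_smul (h : IsPsdPair A D) {x : ℝ} (hx : |x| ≤ 1) :
    (A + (x : ℂ) • D).PosSemidef := by
  have e : A + (x : ℂ) • D = (((1 + x) / 2 : ℝ) : ℂ) • (A + D) + (((1 - x) / 2 : ℝ) : ℂ) • (A - D) := by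
    push_cast
    module
  rw [e]
  obtain ⟨h1, h2⟩ := abs_le.1 hx
  exact (psd_smul h.add (by linarith)).add (psd_smul h.sub (by linarith))

lemma psd_sub_smul (h : IsPsdPair A D) {x : ℝ} (hx : |x| ≤ 1) :
    (A - (x : ℂ) • D).PosSemidef := by
  have e : A - (x : ℂ) • D = A + ((-x : ℝ) : ℂ) • D := by push_cast; module
  rw [e]
  exact psd_add_smul h (by rwa [abs_neg])

lemma par_one (hp : 0 < p) (h : IsPsdPair A D) (hY : A - D = Yᴴ * Y) (hZ : A + D = Zᴴ * Z)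
    {al be : ℝ} (ha : 0 ≤ al) (hb : 0 ≤ be) (hs : 0 < al + be) :
    HX p Zᴴ Yᴴ al be (al * be) =
      (al + be) ^ p * tp p (A + (((al - be) / (al + be) : ℝ) : ℂ) • D) := by
  have hx : |(al - be) / (al + be)| ≤ 1 := by
    rw [abs_div, abs_of_pos hs]
    exact (ratio_mem al be ha hb hs).2
  rw [HX_par hp _ _ ha hb, Matrix.conjTranspose_conjTranspose, Matrix.conjTranspose_conjTranspose,
    ← hY, ← hZ, ← tp_smul (psd_add_smul h hx) hs.le]
  congr 1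
  have e : (((al + be : ℝ) : ℂ)) * (((al - be) / (al + be) : ℝ) : ℂ) = ((al - be : ℝ) : ℂ) := by
    rw [← Complex.ofReal_mul, mul_div_cancel₀ _ hs.ne']
  rw [smul_add ((al + be : ℝ) : ℂ), smul_smul, e]
  push_cast
  module

theorem pair_a1 (hp : 0 < p) (h : IsPsdPair A D) (hY : A - D = Yᴴ * Y) (hZ : A + D = Zᴴ * Z)
    {al be : ℝ} (ha : 0 ≤ al) (hb : 0 ≤ be) (hs : 0 < al + be) :
    (HX p Zᴴ Yᴴ al be (al * be) + HX p Zᴴ Yᴴ be al (al * be)) / 2 =
      (al + be) ^ p * yf p A D (|al - be| / (al + be)) := by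
  have h1 := par_one hp h hY hZ ha hb hs
  have h2 := par_one hp h hY hZ hb ha (by linarith)
  rw [mul_comm be al, add_comm be al] at h2
  rw [h1, h2]
  have e : ∀ u : ℝ, tp p (A + ((-u : ℝ) : ℂ) • D) = tp p (A - (u : ℂ) • D) := by
    intro u
    congr 1
    push_cast
    module
  have e1 : (be - al) / (al + be) = -((al - be) / (al + be)) := by ring
  rw [e1, e, yf]
  rcases le_total be al with hab | hab
  · rw [abs_of_nonneg (sub_nonneg.2 hab)]
    ring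
  · rw [abs_of_nonpos (sub_nonpos.2 hab)]
    have e2 : (-(al - be)) / (al + be) = -((al - be) / (al + be)) := by ring
    have e3 : tp p (A - ((-((al - be) / (al + be)) : ℝ) : ℂ) • D) =
        tp p (A + (((al - be) / (al + be) : ℝ) : ℂ) • D) := by
      congr 1
      push_cast
      module
    rw [e2, e, e3]
    ring

theorem pair_a2 (hp : 0 < p) (hY : A - D = Yᴴ * Y) (hZ : A + D = Zᴴ * Z)
    {al be : ℝ} (ha : 0 ≤ al) (hb : 0 ≤ be) :
    (HX p Zᴴ Yᴴ al be 0 + HX p Zᴴ Yᴴ be al 0) / 2 = (al ^ p + be ^ p) * yf p A D 1 := by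
  rw [HX_orth hp _ _ ha hb, HX_orth hp _ _ hb ha, Matrix.conjTranspose_conjTranspose,
    Matrix.conjTranspose_conjTranspose, ← hY, ← hZ, yf, Complex.ofReal_one, one_smul]
  ring

/-- the second family in terms of `A` and `D` -/
lemma Gm_dual (hY : A - D = Yᴴ * Y) (hZ : A + D = Zᴴ * Z) (al be r : ℝ) :
    Gm (fromRows Y Z) (fromRows Y (-Z)) al be r =
      fromBlocks ((al : ℂ) • ((2 : ℂ) • A)) (-((r : ℂ) • ((2 : ℂ) • D)))
        (-((r : ℂ) • ((2 : ℂ) • D))) ((be : ℂ) • ((2 : ℂ) • A)) := by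
  obtain ⟨h1, h2, h3, h4⟩ := W_mul hY hZ
  rw [Gm, h1, h2, h3, h4, smul_neg]

lemma HX_dual (hY : A - D = Yᴴ * Y) (hZ : A + D = Zᴴ * Z) (al be g : ℝ) :
    HX p (fromRows Y Z) (fromRows Y (-Z)) al be g =
      tp p (fromBlocks ((al : ℂ) • ((2 : ℂ) • A)) (((Real.sqrt g : ℝ) : ℂ) • ((2 : ℂ) • D))
        (((Real.sqrt g : ℝ) : ℂ) • ((2 : ℂ) • D)) ((be : ℂ) • ((2 : ℂ) • A))) := by
  unfold HX tp
  have hG := Gm_herm (fromRows Y Z) (fromRows Y (-Z)) al be (Real.sqrt g)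
  rw [Gm_dual hY hZ] at hG ⊢
  rw [← trF_neg_off _ hG, neg_neg]

lemma dual_par (hp : 0 < p) (hY : A - D = Yᴴ * Y) (hZ : A + D = Zᴴ * Z)
    {al be : ℝ} (ha : 0 ≤ al) (hb : 0 ≤ be) (hs : 0 < al + be) :
    HX p (fromRows Y Z) (fromRows Y (-Z)) al be (al * be) =
      (al + be) ^ p * HX p Zᴴ Yᴴ 1 1 ((|al - be| / (al + be)) ^ 2) := by
  set a : ℂ := ((Real.sqrt al : ℝ) : ℂ) with hae
  set b : ℂ := ((Real.sqrt be : ℝ) : ℂ) with hbe
  have haa : a * a = (al : ℂ) := ofReal_sqrt_mul al ha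
  have hbb : b * b = (be : ℂ) := ofReal_sqrt_mul be hb
  have sa : star a = a := by rw [hae]; simp
  have sb : star b = b := by rw [hbe]; simp
  have hab : ((Real.sqrt (al * be) : ℝ) : ℂ) = a * b := by
    rw [Real.sqrt_mul ha, Complex.ofReal_mul]
  set V : Matrix (ι ⊕ ι) (ι ⊕ ι) ℂ := fromBlocks (a • Zᴴ) (a • Yᴴ) (b • Zᴴ) (-(b • Yᴴ)) with hV
  have hVs : Vᴴ = fromBlocks (a • Z) (b • Z) (a • Y) (-(b • Y)) := by
    rw [hV, Matrix.fromBlocks_conjTranspose]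
    simp only [Matrix.conjTranspose_smul, Matrix.conjTranspose_neg,
      Matrix.conjTranspose_conjTranspose, sa, sb]
  have hA2 : (2 : ℂ) • A = Zᴴ * Z + Yᴴ * Y := by rw [← hY, ← hZ]; module
  have hD2 : (2 : ℂ) • D = Zᴴ * Z - Yᴴ * Y := by rw [← hY, ← hZ]; module
  have h1 : V * Vᴴ = fromBlocks ((al : ℂ) • ((2 : ℂ) • A))
      (((Real.sqrt (al * be) : ℝ) : ℂ) • ((2 : ℂ) • D))
      (((Real.sqrt (al * be) : ℝ) : ℂ) • ((2 : ℂ) • D)) ((be : ℂ) • ((2 : ℂ) • A)) := by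
    rw [hVs, hV, Matrix.fromBlocks_multiply, hA2, hD2, hab, ← haa, ← hbb]
    simp only [Matrix.smul_mul, Matrix.mul_smul, smul_smul, Matrix.mul_neg, Matrix.neg_mul]
    congr 1 <;> module
  have h2 : Vᴴ * V = fromBlocks (((al + be : ℝ) : ℂ) • (Z * Zᴴ)) (((al - be : ℝ) : ℂ) • (Z * Yᴴ))
      (((al - be : ℝ) : ℂ) • (Y * Zᴴ)) (((al + be : ℝ) : ℂ) • (Y * Yᴴ)) := by
    rw [hVs, hV, Matrix.fromBlocks_multiply]
    push_cast
    rw [← haa, ← hbb]
    simp only [Matrix.smul_mul, Matrix.mul_smul, smul_smul, Matrix.mul_neg, Matrix.neg_mul]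
    congr 1 <;> module
  have hpsd : (Vᴴ * V).PosSemidef := Matrix.posSemidef_conjTranspose_mul_self V
  -- the right hand side
  set x : ℝ := |al - be| / (al + be) with hx
  have hx0 : 0 ≤ x := (ratio_mem al be ha hb hs).1
  have hg : HX p Zᴴ Yᴴ 1 1 (x ^ 2) = tp p ((((al + be)⁻¹ : ℝ) : ℂ) • (Vᴴ * V)) := by
    unfold HX
    rw [Real.sqrt_sq hx0, h2, Matrix.fromBlocks_smul]
    have hGh := Gm_herm Zᴴ Yᴴ 1 1 x
    unfold Gm at hGh ⊢
    simp only [Matrix.conjTranspose_conjTranspose, Complex.ofReal_one, one_smul] at hGh ⊢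
    simp only [smul_smul, ← Complex.ofReal_mul]
    rw [inv_mul_cancel₀ hs.ne', Complex.ofReal_one, one_smul, one_smul]
    rcases le_total be al with hba | hba
    · have e : (al + be)⁻¹ * (al - be) = x := by
        rw [hx, abs_of_nonneg (sub_nonneg.2 hba)]; ring
      rw [e]
    · have e : (al + be)⁻¹ * (al - be) = -x := by
        rw [hx, abs_of_nonpos (sub_nonpos.2 hba)]; ring
      rw [e]
      have := trF_neg_off (fun x : ℝ => x ^ p) hGh
      unfold tp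
      rw [← this]
      simp only [Complex.ofReal_neg, neg_smul]
  rw [hg, tp_smul hpsd (inv_nonneg.2 hs.le), ← mul_assoc, ← Real.mul_rpow hs.le (inv_nonneg.2 hs.le),
    mul_inv_cancel₀ hs.ne', Real.one_rpow, one_mul, HX_dual hY hZ, ← h1]
  exact trF_rpow_mul hp V

theorem pair_b1 (hp : 0 < p) (hY : A - D = Yᴴ * Y) (hZ : A + D = Zᴴ * Z)
    {al be : ℝ} (ha : 0 ≤ al) (hb : 0 ≤ be) (hs : 0 < al + be) :
    (HX p (fromRows Y Z) (fromRows Y (-Z)) al be (al * be) +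
      HX p (fromRows Y Z) (fromRows Y (-Z)) be al (al * be)) / 2 =
      (al + be) ^ p * HX p Zᴴ Yᴴ 1 1 ((|al - be| / (al + be)) ^ 2) := by
  have h1 := dual_par hp hY hZ ha hb hs
  have h2 := dual_par hp hY hZ hb ha (by linarith)
  rw [mul_comm be al, add_comm be al, abs_sub_comm] at h2
  rw [h1, h2]
  ring

theorem pair_b2 (hp : 0 < p) (h : IsPsdPair A D) (hY : A - D = Yᴴ * Y) (hZ : A + D = Zᴴ * Z)
    {al be : ℝ} (ha : 0 ≤ al) (hb : 0 ≤ be) :
    (HX p (fromRows Y Z) (fromRows Y (-Z)) al be 0 +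
      HX p (fromRows Y Z) (fromRows Y (-Z)) be al 0) / 2 =
      (al ^ p + be ^ p) * (2 ^ p * yf p A D 0) := by
  obtain ⟨h1, h2, -, -⟩ := W_mul hY hZ
  rw [HX_orth hp _ _ ha hb, HX_orth hp _ _ hb ha, tp_WW hp h.pos h1, tp_WW hp h.pos h2, yf,
    Complex.ofReal_zero, zero_smul, add_zero, sub_zero]
  ring

theorem pair_b3 (h : IsPsdPair A D) (hY : A - D = Yᴴ * Y) (hZ : A + D = Zᴴ * Z)
    {t : ℝ} (h0 : 0 ≤ t) (h1 : t ≤ 1) :
    HX p (fromRows Y Z) (fromRows Y (-Z)) 1 1 (t ^ 2) = 2 * 2 ^ p * yf p A D t := by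
  have ht : |t| ≤ 1 := abs_le.2 ⟨by linarith, h1⟩
  have hc : (2 : ℂ) = ((2 : ℝ) : ℂ) := by norm_num
  have hA2 : ((2 : ℂ) • A).IsHermitian := by rw [hc]; exact herm_smul h.pos.1 2
  have hD2 : ((t : ℂ) • ((2 : ℂ) • D)).IsHermitian := by
    rw [hc]; exact herm_smul (herm_smul h.herm 2) t
  have e1 := tp_smul (α := p) (psd_add_smul h ht) (c := 2) (by norm_num)
  have e2 := tp_smul (α := p) (psd_sub_smul h ht) (c := 2) (by norm_num)
  rw [HX_dual hY hZ, Real.sqrt_sq h0, Complex.ofReal_one, one_smul]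
  unfold tp at e1 e2 ⊢
  rw [trF_circ _ hA2 hD2]
  have e3 : (2 : ℂ) • A + (t : ℂ) • ((2 : ℂ) • D) = ((2 : ℝ) : ℂ) • (A + (t : ℂ) • D) := by
    push_cast
    module
  have e4 : (2 : ℂ) • A - (t : ℂ) • ((2 : ℂ) • D) = ((2 : ℝ) : ℂ) • (A - (t : ℂ) • D) := by
    push_cast
    module
  rw [e3, e4, e1, e2, yf]
  unfold tp
  ring

theorem yf_continuous (hp : 0 ≤ p) (hA : A.IsHermitian) (hD : D.IsHermitian) :
    Continuous (yf p A D) := by
  have hf : Continuous fun x : ℝ => x ^ p := continuous_id.rpow_const fun x => Or.inr hp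
  have key : ∀ s : ℝ, Continuous fun t : ℝ => tp p (A + ((s * t : ℝ) : ℂ) • D) := by
    intro s
    rw [continuous_iff_continuousAt]
    intro t₀
    refine tendsto_of_seq_tendsto fun u hu => ?_
    refine tendsto_trF _ hf _ _ (fun j => hA.add (herm_smul hD _)) (hA.add (herm_smul hD _)) ?_
    refine tendsto_const_nhds.add ?_
    refine Filter.Tendsto.smul_const ?_ D
    exact (Complex.continuous_ofReal.tendsto _).comp (hu.const_mul s)
  have e : yf p A D = fun t => (tp p (A + ((1 * t : ℝ) : ℂ) • D) +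
      tp p (A + ((-1 * t : ℝ) : ℂ) • D)) / 2 := by
    funext t
    unfold yf
    congr 3
    · rw [one_mul]
    · push_cast
      module
  rw [e]
  exact ((key 1).add (key (-1))).div_const 2

end pair

/-- CLAIM(p) from the comparison principle for the two families -/
theorem cq_of_MP {p : ℝ} (hp : 1 < p) {A D Y Z : Matrix ι ι ℂ} (h : IsPsdPair A D)
    (hY : A - D = Yᴴ * Y) (hZ : A + D = Zᴴ * Z) (m1 : MP p (HX p Zᴴ Yᴴ))
    (m2 : MP p (HX p (fromRows Y Z) (fromRows Y (-Z)))) {t : ℝ} (h0 : 0 ≤ t) (h1 : t ≤ 1) :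
    (cq p t - 1) * G p A D ≤ (2 ^ (p - 1) - 1) * (yf p A D t - tp p A) := by
  have hp0 : 0 < p := by linarith
  have k := cq_abs p hp (yf p A D) (yf_continuous hp0.le h.pos.1 h.herm).continuousOn
    (HX p Zᴴ Yᴴ) (HX p (fromRows Y Z) (fromRows Y (-Z)))
    (fun al be ha hb hs => pair_a1 hp0 h hY hZ ha hb hs)
    (fun al be ha hb _ => pair_a2 hp0 hY hZ ha hb)
    (fun al be ha hb hs => pair_b1 hp0 hY hZ ha hb hs)
    (fun al be ha hb _ => pair_b2 hp0 h hY hZ ha hb)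
    (fun t h0 h1 => pair_b3 h hY hZ h0 h1) m1 m2 t h0 h1
  have y0 : yf p A D 0 = tp p A := by
    rw [yf, Complex.ofReal_zero, zero_smul, add_zero, sub_zero]
    ring
  have y1 : G p A D = yf p A D 1 - tp p A := by
    rw [yf, Complex.ofReal_one, one_smul]
    rfl
  rw [y1]
  rw [y0] at k
  linarith

end Pool.Agent.Lib_helper19.QS
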