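import Pool.Agent.Lib_helper19.QS.OP

/-!
# MP_859019, one side a qubit pair: second derivative of the contour integral (block CIM)
-/

set_option autoImplicit false

open scoped BigOperators ComplexOrder Kronecker MatrixOrder Topology Real Interval
open MeasureTheory Set Matrix Filter

namespace Pool.Agent.Lib_helper19.QS

open Pool.Agent.QB

variable {m : Type} [Fintype m] [DecidableEq m]

lemma cont_inv {X : Type*} [TopologicalSpace X] {A : X → Matrix m m ℂ} {s : Set X}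
    (hA : ContinuousOn A s) (h : ∀ x ∈ s, (A x).det ≠ 0) : ContinuousOn (fun x => (A x)⁻¹) s := by
  have e : (fun x => (A x)⁻¹) = fun x => ((A x).det)⁻¹ • (A x).adjugate := by
    funext x
    rw [Matrix.inv_def, Ring.inverse_eq_inv']
  have hd : ContinuousOn (fun x => (A x).det) s :=
    (continuous_id.matrix_det).comp_continuousOn hA
  have hj : ContinuousOn (fun x => (A x).adjugate) s :=
    (continuous_id.matrix_adjugate).comp_continuousOn hA
  rw [e]
  exact (hd.inv₀ h).smul hj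

/-- differentiation under the circle integral -/
lemma hasDerivAt_circle {F F' : ℝ → ℂ → ℂ} {c : ℂ} {ρ ε x₀ : ℝ} (hρ : 0 ≤ ρ) (hε : 0 < ε)
    (hF : ContinuousOn (fun q : ℝ × ℂ => F q.1 q.2) (Icc (x₀ - ε) (x₀ + ε) ×ˢ Metric.sphere c ρ))
    (hF' : ContinuousOn (fun q : ℝ × ℂ => F' q.1 q.2) (Icc (x₀ - ε) (x₀ + ε) ×ˢ Metric.sphere c ρ))
    (hd : ∀ x ∈ Ioo (x₀ - ε) (x₀ + ε), ∀ z ∈ Metric.sphere c ρ,
      HasDerivAt (fun x => F x z) (F' x z) x) :
    HasDerivAt (fun x => ∮ z in C(c, ρ), F x z) (∮ z in C(c, ρ), F' x₀ z) x₀ := by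
  have hK : IsCompact (Icc (x₀ - ε) (x₀ + ε) ×ˢ Metric.sphere c ρ) :=
    isCompact_Icc.prod (isCompact_sphere c ρ)
  obtain ⟨B, hB⟩ := hK.exists_bound_of_continuousOn hF'
  have hsec : ∀ {H : ℝ → ℂ → ℂ}, ContinuousOn (fun q : ℝ × ℂ => H q.1 q.2)
      (Icc (x₀ - ε) (x₀ + ε) ×ˢ Metric.sphere c ρ) → ∀ x ∈ Icc (x₀ - ε) (x₀ + ε),
      Continuous (fun θ : ℝ => deriv (circleMap c ρ) θ • H x (circleMap c ρ θ)) := by
    intro H hH x hx
    have h1 : ContinuousOn (H x) (Metric.sphere c ρ) := by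
      have : ContinuousOn (fun z : ℂ => ((x, z) : ℝ × ℂ)) (Metric.sphere c ρ) := by fun_prop
      exact hH.comp this fun z hz => ⟨hx, hz⟩
    have h2 : Continuous fun θ : ℝ => H x (circleMap c ρ θ) := by
      rw [← continuousOn_univ]
      refine h1.comp (continuous_circleMap c ρ).continuousOn ?_
      exact fun θ _ => circleMap_mem_sphere c hρ θ
    have h3 : Continuous fun θ : ℝ => deriv (circleMap c ρ) θ := by
      simp only [deriv_circleMap]
      exact (continuous_circleMap 0 ρ).mul continuous_const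
    exact h3.smul h2
  have hx₀ : x₀ ∈ Icc (x₀ - ε) (x₀ + ε) := ⟨by linarith, by linarith⟩
  have hs : Ioo (x₀ - ε) (x₀ + ε) ∈ 𝓝 x₀ := Ioo_mem_nhds (by linarith) (by linarith)
  simp only [circleIntegral]
  refine (intervalIntegral.hasDerivAt_integral_of_dominated_loc_of_deriv_le
    (F := fun x θ => deriv (circleMap c ρ) θ • F x (circleMap c ρ θ))
    (F' := fun x θ => deriv (circleMap c ρ) θ • F' x (circleMap c ρ θ))
    (bound := fun _ => ρ * B) hs ?_ ?_ ?_ ?_ ?_ ?_).2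
  · filter_upwards [hs] with x hx
    exact (hsec hF x (Ioo_subset_Icc_self hx)).aestronglyMeasurable
  · exact (hsec hF x₀ hx₀).intervalIntegrable _ _
  · exact (hsec hF' x₀ hx₀).aestronglyMeasurable
  · refine Eventually.of_forall fun θ _ x hx => ?_
    rw [norm_smul]
    have h1 : ‖deriv (circleMap c ρ) θ‖ = ρ := by
      rw [deriv_circleMap, norm_mul, Complex.norm_I, mul_one, norm_circleMap_zero, abs_of_nonneg hρ]
    rw [h1]
    exact mul_le_mul_of_nonneg_left
      (hB (x, circleMap c ρ θ) ⟨Ioo_subset_Icc_self hx, circleMap_mem_sphere c hρ θ⟩) hρ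
  · exact intervalIntegrable_const
  · refine Eventually.of_forall fun θ _ x hx => ?_
    exact (hd x hx _ (circleMap_mem_sphere c hρ θ)).const_smul (deriv (circleMap c ρ) θ)

/-- the resolvent of `M0 + x M1` -/
noncomputable def Rz (M0 M1 : Matrix m m ℂ) (x : ℝ) (z : ℂ) : Matrix m m ℂ :=
  (z • (1 : Matrix m m ℂ) - (M0 + (x : ℂ) • M1))⁻¹

lemma res_diff {A B : Matrix m m ℂ} (hA : A.det ≠ 0) (hB : B.det ≠ 0) :
    A⁻¹ - B⁻¹ = A⁻¹ * (B - A) * B⁻¹ := by
  rw [Matrix.mul_sub, Matrix.sub_mul, Matrix.nonsing_inv_mul _ (isUnit_iff_ne_zero.2 hA),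
    Matrix.mul_assoc, Matrix.mul_nonsing_inv _ (isUnit_iff_ne_zero.2 hB), Matrix.mul_one,
    Matrix.one_mul]

section param

variable {M0 M1 : Matrix m m ℂ} {z : ℂ} {x : ℝ}

lemma cont_aff (M0 M1 : Matrix m m ℂ) : Continuous fun q : ℝ × ℂ =>
    q.2 • (1 : Matrix m m ℂ) - (M0 + (q.1 : ℂ) • M1) :=
  (continuous_snd.smul continuous_const).sub
    (continuous_const.add ((Complex.continuous_ofReal.comp continuous_fst).smul continuous_const))

lemma deriv_x (N : Matrix m m ℂ)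
    (h : (z • (1 : Matrix m m ℂ) - (M0 + (x : ℂ) • M1)).det ≠ 0) :
    HasDerivAt (fun x => (Rz M0 M1 x z * N).trace) (Rz M0 M1 x z * M1 * (Rz M0 M1 x z * N)).trace x := by
  have hca : Continuous fun y : ℝ => z • (1 : Matrix m m ℂ) - (M0 + (y : ℂ) • M1) :=
    (cont_aff M0 M1).comp (continuous_id.prodMk continuous_const)
  have hdet : ∀ᶠ y : ℝ in 𝓝 x, (z • (1 : Matrix m m ℂ) - (M0 + (y : ℂ) • M1)).det ≠ 0 :=
    hca.matrix_det.continuousAt.eventually_ne h
  have hcR : ContinuousAt (fun y => Rz M0 M1 y z) x := by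
    have h1 : ContinuousOn (fun y => Rz M0 M1 y z)
        {y | (z • (1 : Matrix m m ℂ) - (M0 + (y : ℂ) • M1)).det ≠ 0} :=
      cont_inv hca.continuousOn fun y hy => hy
    exact h1.continuousAt hdet
  rw [hasDerivAt_iff_tendsto_slope]
  have ht : Tendsto (fun y => (Rz M0 M1 y z * M1 * (Rz M0 M1 x z * N)).trace) (𝓝[≠] x)
      (𝓝 (Rz M0 M1 x z * M1 * (Rz M0 M1 x z * N)).trace) := by
    have h2 : ContinuousAt (fun y => (Rz M0 M1 y z * M1 * (Rz M0 M1 x z * N)).trace) x := by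
      have h3 : Continuous fun A : Matrix m m ℂ => (A * M1 * (Rz M0 M1 x z * N)).trace :=
        ((continuous_id.mul continuous_const).mul continuous_const).matrix_trace
      exact ContinuousAt.comp (f := fun y => Rz M0 M1 y z) h3.continuousAt hcR
    exact h2.tendsto.mono_left nhdsWithin_le_nhds
  refine ht.congr' ?_
  filter_upwards [hdet.filter_mono nhdsWithin_le_nhds, self_mem_nhdsWithin] with y hy hne
  have hyx : (y : ℂ) - (x : ℂ) ≠ 0 := by
    rw [← Complex.ofReal_sub]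
    exact_mod_cast sub_ne_zero.2 hne
  have e1 : Rz M0 M1 y z - Rz M0 M1 x z = ((y : ℂ) - x) • (Rz M0 M1 y z * M1 * Rz M0 M1 x z) := by
    unfold Rz
    rw [res_diff hy h]
    have e2 : z • (1 : Matrix m m ℂ) - (M0 + (x : ℂ) • M1) -
        (z • (1 : Matrix m m ℂ) - (M0 + (y : ℂ) • M1)) = ((y : ℂ) - x) • M1 := by module
    rw [e2, Matrix.mul_smul, Matrix.smul_mul]
  rw [slope_def_module]
  have e3 : (Rz M0 M1 y z * N).trace - (Rz M0 M1 x z * N).trace =
      ((y : ℂ) - x) * (Rz M0 M1 y z * M1 * (Rz M0 M1 x z * N)).trace := by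
    rw [← Matrix.trace_sub, ← Matrix.sub_mul, e1, Matrix.smul_mul, Matrix.trace_smul, smul_eq_mul,
      Matrix.mul_assoc]
  rw [e3]
  have e4 : ((y - x)⁻¹ : ℝ) • (((y : ℂ) - x) * (Rz M0 M1 y z * M1 * (Rz M0 M1 x z * N)).trace) =
      (Rz M0 M1 y z * M1 * (Rz M0 M1 x z * N)).trace := by
    rw [Complex.real_smul, Complex.ofReal_inv, Complex.ofReal_sub, ← mul_assoc,
      inv_mul_cancel₀ hyx, one_mul]
  exact e4.symm

lemma deriv_z (A N : Matrix m m ℂ) (h : (z • (1 : Matrix m m ℂ) - A).det ≠ 0) :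
    HasDerivAt (fun z : ℂ => ((z • (1 : Matrix m m ℂ) - A)⁻¹ * N).trace)
      (-((z • (1 : Matrix m m ℂ) - A)⁻¹ * ((z • (1 : Matrix m m ℂ) - A)⁻¹ * N)).trace) z := by
  have hca : Continuous fun w : ℂ => w • (1 : Matrix m m ℂ) - A :=
    (continuous_id.smul continuous_const).sub continuous_const
  have hdet : ∀ᶠ w in 𝓝 z, (w • (1 : Matrix m m ℂ) - A).det ≠ 0 :=
    hca.matrix_det.continuousAt.eventually_ne h
  have hcR : ContinuousAt (fun w : ℂ => (w • (1 : Matrix m m ℂ) - A)⁻¹) z := by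
    have h1 : ContinuousOn (fun w : ℂ => (w • (1 : Matrix m m ℂ) - A)⁻¹)
        {w | (w • (1 : Matrix m m ℂ) - A).det ≠ 0} := cont_inv hca.continuousOn fun y hy => hy
    exact h1.continuousAt hdet
  set R := (z • (1 : Matrix m m ℂ) - A)⁻¹ with hR
  rw [hasDerivAt_iff_tendsto_slope]
  have ht : Tendsto (fun w : ℂ => -((w • (1 : Matrix m m ℂ) - A)⁻¹ * (R * N)).trace) (𝓝[≠] z)
      (𝓝 (-(R * (R * N)).trace)) := by
    have h2 : ContinuousAt (fun w : ℂ => -((w • (1 : Matrix m m ℂ) - A)⁻¹ * (R * N)).trace) z := by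
      have h3 : Continuous fun X : Matrix m m ℂ => -(X * (R * N)).trace :=
        ((continuous_id.mul continuous_const).matrix_trace).neg
      exact ContinuousAt.comp (f := fun w : ℂ => (w • (1 : Matrix m m ℂ) - A)⁻¹) h3.continuousAt hcR
    exact h2.tendsto.mono_left nhdsWithin_le_nhds
  refine ht.congr' ?_
  filter_upwards [hdet.filter_mono nhdsWithin_le_nhds, self_mem_nhdsWithin] with w hw hne
  have hwz : w - z ≠ 0 := sub_ne_zero.2 hne
  have e1 : (w • (1 : Matrix m m ℂ) - A)⁻¹ - R =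
      (z - w) • ((w • (1 : Matrix m m ℂ) - A)⁻¹ * R) := by
    rw [hR, res_diff hw h]
    have e2 : z • (1 : Matrix m m ℂ) - A - (w • (1 : Matrix m m ℂ) - A) =
        (z - w) • (1 : Matrix m m ℂ) := by module
    rw [e2, Matrix.mul_smul, Matrix.smul_mul, Matrix.mul_one]
  rw [slope_def_field]
  have e3 : ((w • (1 : Matrix m m ℂ) - A)⁻¹ * N).trace - (R * N).trace =
      (z - w) * ((w • (1 : Matrix m m ℂ) - A)⁻¹ * (R * N)).trace := by
    rw [← Matrix.trace_sub, ← Matrix.sub_mul, e1, Matrix.smul_mul, Matrix.trace_smul, smul_eq_mul,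
      Matrix.mul_assoc]
  rw [e3, eq_div_iff hwz]
  ring

end param

/-- integration by parts on the circle -/
lemma by_parts {A : Matrix m m ℂ} (N : Matrix m m ℂ) {p c ρ : ℝ} (hρ : 0 < ρ) (hρc : ρ < c)
    (h : ∀ z ∈ Metric.sphere (c : ℂ) ρ, (z • (1 : Matrix m m ℂ) - A).det ≠ 0) :
    (∮ z in C((c : ℂ), ρ), z ^ (p : ℂ) *
      ((z • (1 : Matrix m m ℂ) - A)⁻¹ * ((z • (1 : Matrix m m ℂ) - A)⁻¹ * N)).trace) =
    p * ∮ z in C((c : ℂ), ρ), z ^ ((p - 1 : ℝ) : ℂ) * ((z • (1 : Matrix m m ℂ) - A)⁻¹ * N).trace := by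
  have hslit : ∀ z ∈ Metric.sphere (c : ℂ) ρ, z ∈ Complex.slitPlane := by
    intro z hz
    rw [mem_sphere_iff_norm] at hz
    left
    have h1 : |(z - (c : ℂ)).re| ≤ ‖z - (c : ℂ)‖ := Complex.abs_re_le_norm _
    have h2 : (z - (c : ℂ)).re = z.re - c := by simp
    rw [h2] at h1
    have := neg_abs_le (z.re - c)
    linarith
  have hzero := circleIntegral.integral_eq_zero_of_hasDerivWithinAt (c := (c : ℂ)) (R := ρ) hρ.le
    (f := fun z => z ^ (p : ℂ) * ((z • (1 : Matrix m m ℂ) - A)⁻¹ * N).trace)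
    (f' := fun z => (p : ℂ) * (z ^ ((p - 1 : ℝ) : ℂ) * ((z • (1 : Matrix m m ℂ) - A)⁻¹ * N).trace) -
      z ^ (p : ℂ) *
        ((z • (1 : Matrix m m ℂ) - A)⁻¹ * ((z • (1 : Matrix m m ℂ) - A)⁻¹ * N)).trace)
    (fun z hz => by
      have h1 : HasDerivAt (fun z : ℂ => z ^ (p : ℂ)) ((p : ℂ) * z ^ ((p : ℂ) - 1)) z := by
        have := (hasDerivAt_id z).cpow_const (c := (p : ℂ)) (hslit z hz)
        simpa using this
      have h2 := deriv_z A N (h z hz)
      refine ((h1.mul h2).congr_deriv ?_).hasDerivWithinAt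
      push_cast
      ring)
  have hcR : ContinuousOn (fun z : ℂ => (z • (1 : Matrix m m ℂ) - A)⁻¹) (Metric.sphere (c : ℂ) ρ) :=
    cont_res h
  have ht : Continuous (fun X : Matrix m m ℂ => X.trace) := continuous_id.matrix_trace
  have i1 : CircleIntegrable (fun z => (p : ℂ) * (z ^ ((p - 1 : ℝ) : ℂ) *
      ((z • (1 : Matrix m m ℂ) - A)⁻¹ * N).trace)) (c : ℂ) ρ := by
    apply ContinuousOn.circleIntegrable hρ.le
    exact continuousOn_const.mul ((cpow_cont hρc _).mul (ht.comp_continuousOn (hcR.mul continuousOn_const)))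
  have i2 : CircleIntegrable (fun z => z ^ (p : ℂ) *
      ((z • (1 : Matrix m m ℂ) - A)⁻¹ * ((z • (1 : Matrix m m ℂ) - A)⁻¹ * N)).trace) (c : ℂ) ρ := by
    apply ContinuousOn.circleIntegrable hρ.le
    exact (cpow_cont hρc _).mul (ht.comp_continuousOn (hcR.mul (hcR.mul continuousOn_const)))
  rw [circleIntegral.integral_sub i1 i2, circleIntegral.integral_const_mul] at hzero
  exact (sub_eq_zero.1 hzero).symm

/-- CIM (helper69's `CIMStmt`) -/
theorem cim : CIM0 := by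
  intro m _ _ M0 M1 p c ρ hρ hρc h hh
  obtain ⟨ε, hε, hball⟩ := Metric.eventually_nhds_iff.1 hh
  set δ : ℝ := ε / 4 with hδ
  have hδ0 : 0 < δ := by positivity
  have hdet : ∀ x : ℝ, |x| < ε → ∀ z ∈ Metric.sphere (c : ℂ) ρ,
      (z • (1 : Matrix m m ℂ) - (M0 + (x : ℂ) • M1)).det ≠ 0 := by
    intro x hx
    exact (hball (by rwa [Real.dist_eq, sub_zero])).1
  have hval : ∀ x : ℝ, |x| < ε → ((h x : ℝ) : ℂ) = (2 * π * Complex.I : ℂ)⁻¹ *
      ∮ z in C((c : ℂ), ρ), z ^ (p : ℂ) * (Rz M0 M1 x z * 1).trace := by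
    intro x hx
    have := (hball (y := x) (by rwa [Real.dist_eq, sub_zero])).2
    simp only [Matrix.mul_one]
    exact this
  -- continuity on the product set
  have hcR : ContinuousOn (fun q : ℝ × ℂ => Rz M0 M1 q.1 q.2)
      (Ioo (-ε) ε ×ˢ Metric.sphere (c : ℂ) ρ) := by
    refine cont_inv (cont_aff M0 M1).continuousOn ?_
    rintro ⟨x, z⟩ ⟨hx, hz⟩
    exact hdet x (abs_lt.2 hx) z hz
  have hcz : ∀ q : ℂ, ContinuousOn (fun w : ℝ × ℂ => w.2 ^ q)
      (Ioo (-ε) ε ×ˢ Metric.sphere (c : ℂ) ρ) := by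
    intro q
    exact (cpow_cont hρc q).comp continuousOn_snd fun w hw => hw.2
  have ht : Continuous (fun X : Matrix m m ℂ => X.trace) := continuous_id.matrix_trace
  have sub : ∀ x : ℝ, |x| < 2 * δ → Icc (x - δ) (x + δ) ×ˢ Metric.sphere (c : ℂ) ρ ⊆
      Ioo (-ε) ε ×ˢ Metric.sphere (c : ℂ) ρ := by
    intro x hx
    obtain ⟨h1, h2⟩ := abs_lt.1 hx
    refine prod_mono ?_ le_rfl
    intro y hy
    exact ⟨by linarith [hy.1], by linarith [hy.2]⟩
  -- the derivative of a trace integral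
  have key : ∀ (q : ℂ) (N : Matrix m m ℂ) (x : ℝ), |x| < 2 * δ →
      HasDerivAt (fun x => ∮ z in C((c : ℂ), ρ), z ^ q * (Rz M0 M1 x z * N).trace)
        (∮ z in C((c : ℂ), ρ), z ^ q * (Rz M0 M1 x z * M1 * (Rz M0 M1 x z * N)).trace) x := by
    intro q N x hx
    refine hasDerivAt_circle (F := fun x z => z ^ q * (Rz M0 M1 x z * N).trace)
      (F' := fun x z => z ^ q * (Rz M0 M1 x z * M1 * (Rz M0 M1 x z * N)).trace) hρ.le hδ0 ?_ ?_ ?_
    · refine ContinuousOn.mono ?_ (sub x hx)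
      exact (hcz q).mul (ht.comp_continuousOn (hcR.mul continuousOn_const))
    · refine ContinuousOn.mono ?_ (sub x hx)
      exact (hcz q).mul (ht.comp_continuousOn
        ((hcR.mul continuousOn_const).mul (hcR.mul continuousOn_const)))
    · intro y hy z hz
      obtain ⟨h1, h2⟩ := abs_lt.1 hx
      have hyε : |y| < ε := abs_lt.2 ⟨by linarith [hy.1], by linarith [hy.2]⟩
      exact (deriv_x N (hdet y hyε z hz)).const_mul (z ^ q)
  -- the first derivative
  set k : ℂ := (2 * π * Complex.I : ℂ)⁻¹ with hk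
  set G : ℝ → ℂ := fun x => k * ∮ z in C((c : ℂ), ρ), z ^ (p : ℂ) * (Rz M0 M1 x z * 1).trace with hG
  set G1 : ℝ → ℂ := fun x => (p : ℂ) * k *
    ∮ z in C((c : ℂ), ρ), z ^ ((p - 1 : ℝ) : ℂ) * (Rz M0 M1 x z * M1).trace with hG1
  set G2 : ℂ := (p : ℂ) * k * ∮ z in C((c : ℂ), ρ), z ^ ((p - 1 : ℝ) : ℂ) *
    (Rz M0 M1 0 z * M1 * (Rz M0 M1 0 z * M1)).trace with hG2
  have d1 : ∀ x : ℝ, |x| < 2 * δ → HasDerivAt G (G1 x) x := by
    intro x hx
    have hxε : |x| < ε := by linarith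
    refine ((key (p : ℂ) 1 x hx).const_mul k).congr_deriv ?_
    have e : (∮ z in C((c : ℂ), ρ), z ^ (p : ℂ) * (Rz M0 M1 x z * M1 * (Rz M0 M1 x z * 1)).trace) =
        ∮ z in C((c : ℂ), ρ), z ^ (p : ℂ) * (Rz M0 M1 x z * (Rz M0 M1 x z * M1)).trace := by
      refine circleIntegral.integral_congr hρ.le fun z _ => ?_
      simp only [Matrix.mul_one]
      rw [Matrix.trace_mul_comm]
    rw [e]
    have := by_parts (A := M0 + (x : ℂ) • M1) M1 (p := p) hρ hρc (hdet x hxε)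
    simp only [hG1]
    unfold Rz
    rw [this]
    ring
  have d2 : HasDerivAt G1 G2 0 := by
    have := (key ((p - 1 : ℝ) : ℂ) M1 0 (by simpa using hδ0)).const_mul ((p : ℂ) * k)
    exact this
  -- real parts
  have hGh : ∀ x : ℝ, |x| < ε → G x = (h x : ℂ) := fun x hx => (hval x hx).symm
  have near : ∀ x : ℝ, |x| < 2 * δ → ∀ᶠ y in 𝓝 x, |y| < ε := by
    intro x hx
    have : |x| < ε := by linarith
    exact continuous_abs.continuousAt.eventually (Iio_mem_nhds this)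
  have dh : ∀ x : ℝ, |x| < 2 * δ → HasDerivAt h (G1 x).re x := by
    intro x hx
    have h1 : HasDerivAt (fun y => (G y).re) (G1 x).re x := by
      have := (Complex.reCLM.hasFDerivAt (x := G x)).comp_hasDerivAt x (d1 x hx)
      exact this
    refine h1.congr_of_eventuallyEq ?_
    filter_upwards [near x hx] with y hy
    rw [hGh y hy, Complex.ofReal_re]
  have di : ∀ x : ℝ, |x| < 2 * δ → (G1 x).im = 0 := by
    intro x hx
    have h1 : HasDerivAt (fun y => (G y).im) (G1 x).im x := by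
      have := (Complex.imCLM.hasFDerivAt (x := G x)).comp_hasDerivAt x (d1 x hx)
      exact this
    have h2 : HasDerivAt (fun _ : ℝ => (0 : ℝ)) (G1 x).im x := by
      refine h1.congr_of_eventuallyEq ?_
      filter_upwards [near x hx] with y hy
      rw [hGh y hy, Complex.ofReal_im]
    exact h2.unique (hasDerivAt_const x 0)
  have nearδ : ∀ᶠ x in 𝓝 (0 : ℝ), |x| < 2 * δ := by
    have : |(0 : ℝ)| < 2 * δ := by simpa using hδ0
    exact continuous_abs.continuousAt.eventually (Iio_mem_nhds this)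
  refine ⟨G2.re, ⟨fun x => (G1 x).re, ?_, ?_⟩, ?_⟩
  · filter_upwards [nearδ] with x hx
    exact dh x hx
  · have := (Complex.reCLM.hasFDerivAt (x := G1 0)).comp_hasDerivAt (0 : ℝ) d2
    exact this
  · have h1 : HasDerivAt (fun y => (G1 y).im) G2.im 0 := by
      have := (Complex.imCLM.hasFDerivAt (x := G1 0)).comp_hasDerivAt (0 : ℝ) d2
      exact this
    have h2 : HasDerivAt (fun _ : ℝ => (0 : ℝ)) G2.im 0 := by
      refine h1.congr_of_eventuallyEq ?_
      filter_upwards [nearδ] with y hy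
      rw [di y hy]
    have h3 : G2.im = 0 := h2.unique (hasDerivAt_const 0 0)
    have h4 : (G2.re : ℂ) = G2 := by
      apply Complex.ext
      · simp
      · simp [h3]
    rw [h4, hG2]
    have e0 : ∀ z : ℂ, Rz M0 M1 0 z = (z • (1 : Matrix m m ℂ) - M0)⁻¹ := by
      intro z
      unfold Rz
      rw [Complex.ofReal_zero, zero_smul, add_zero]
    simp only [e0]

end Pool.Agent.Lib_helper19.QS
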