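import Pool.Agent.Lib_helper69.QB.Defs
import Pool.Agent.Lib_helper19.QS.CQmat

/-!
# MP_859019, one side a qubit pair: `Hp` of the letters `X Xᴴ, Y Yᴴ` is `HX`

Also boundary values, homogeneity and the exchange of the two letters for `Hp`.
-/

set_option autoImplicit false

open scoped BigOperators ComplexOrder Kronecker MatrixOrder Topology
open MeasureTheory Set Matrix Filter

namespace Pool.Agent.Lib_helper19.QS

open Pool.Agent.RC Pool.Agent.LDK Pool.Agent.LDK.DUAL Pool.Agent.QB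

variable {ι κ : Type} [Fintype ι] [DecidableEq ι] [Fintype κ] [DecidableEq κ]

/-- `[a ⊗ X, b ⊗ Y]` -/
noncomputable def Vf (a b : Fin 2 → ℝ) (X Y : Matrix κ ι ℂ) : Matrix (Fin 2 × κ) (ι ⊕ ι) ℂ :=
  fromCols (Matrix.of fun ik j => (a ik.1 : ℂ) * X ik.2 j) (Matrix.of fun ik j => (b ik.1 : ℂ) * Y ik.2 j)

lemma Vf_mul (a b : Fin 2 → ℝ) (X Y : Matrix κ ι ℂ) (i i' : Fin 2) (k k' : κ) :
    (Vf a b X Y * (Vf a b X Y)ᴴ) (i, k) (i', k') =
      (a i * a i' : ℝ) * (X * Xᴴ) k k' + (b i * b i' : ℝ) * (Y * Yᴴ) k k' := by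
  unfold Vf
  rw [Matrix.conjTranspose_fromCols_eq_fromRows_conjTranspose, Matrix.fromCols_mul_fromRows,
    Matrix.add_apply]
  simp only [Matrix.mul_apply, Matrix.conjTranspose_apply, Matrix.of_apply, star_mul',
    RCLike.star_def, Complex.conj_ofReal, Finset.mul_sum]
  push_cast
  congr 1 <;>
  · refine Finset.sum_congr rfl fun j _ => ?_
    ring

lemma Vf_star_mul (a b : Fin 2 → ℝ) (X Y : Matrix κ ι ℂ) :
    (Vf a b X Y)ᴴ * Vf a b X Y =
      fromBlocks (((a 0 * a 0 + a 1 * a 1 : ℝ) : ℂ) • (Xᴴ * X))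
        (((a 0 * b 0 + a 1 * b 1 : ℝ) : ℂ) • (Xᴴ * Y))
        (((a 0 * b 0 + a 1 * b 1 : ℝ) : ℂ) • (Yᴴ * X))
        (((b 0 * b 0 + b 1 * b 1 : ℝ) : ℂ) • (Yᴴ * Y)) := by
  unfold Vf
  rw [Matrix.conjTranspose_fromCols_eq_fromRows_conjTranspose, Matrix.fromRows_mul_fromCols]
  congr 1 <;>
  · ext j j'
    simp only [Matrix.mul_apply, Matrix.conjTranspose_apply, Matrix.of_apply, star_mul',
      RCLike.star_def, Complex.conj_ofReal, Matrix.smul_apply, smul_eq_mul,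
      Fintype.sum_prod_type, Fin.sum_univ_two, Finset.mul_sum]
    rw [← Finset.sum_add_distrib]
    push_cast
    refine Finset.sum_congr rfl fun k _ => ?_
    ring

lemma Mt_eq (α β γ : ℝ) (h0 : 0 ≤ α) (h1 : 0 ≤ β) (h2 : 0 ≤ γ) (h3 : γ ≤ 1) (X Y : Matrix κ ι ℂ) :
    Mt α β γ (X * Xᴴ) (Y * Yᴴ) =
      Vf ![√α, 0] ![√β * √γ, √β * √(1 - γ)] X Y * (Vf ![√α, 0] ![√β * √γ, √β * √(1 - γ)] X Y)ᴴ := by
  have e1 : √α * √α = α := Real.mul_self_sqrt h0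
  have e2 : √β * √β = β := Real.mul_self_sqrt h1
  have e3 : √γ * √γ = γ := Real.mul_self_sqrt h2
  have e4 : √(1 - γ) * √(1 - γ) = 1 - γ := Real.mul_self_sqrt (by linarith)
  ext ⟨i, k⟩ ⟨i', k'⟩
  rw [Vf_mul, Mt, Matrix.add_apply, Matrix.smul_apply, Matrix.smul_apply,
    Matrix.kroneckerMap_apply, Matrix.kroneckerMap_apply]
  have f1 : (√β * √γ) * (√β * √γ) = β * γ := by
    calc (√β * √γ) * (√β * √γ) = (√β * √β) * (√γ * √γ) := by ring
      _ = _ := by rw [e2, e3]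
  have f2 : (√β * √(1 - γ)) * (√β * √(1 - γ)) = β * (1 - γ) := by
    calc (√β * √(1 - γ)) * (√β * √(1 - γ)) = (√β * √β) * (√(1 - γ) * √(1 - γ)) := by ring
      _ = _ := by rw [e2, e4]
  have f3 : (√β * √γ) * (√β * √(1 - γ)) = β * (√γ * √(1 - γ)) := by
    calc (√β * √γ) * (√β * √(1 - γ)) = (√β * √β) * (√γ * √(1 - γ)) := by ring
      _ = _ := by rw [e2]
  have f4 : (√β * √(1 - γ)) * (√β * √γ) = β * (√γ * √(1 - γ)) := by
    calc (√β * √(1 - γ)) * (√β * √γ) = (√β * √β) * (√γ * √(1 - γ)) := by ring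
      _ = _ := by rw [e2]
  fin_cases i <;> fin_cases i'
  · simp only [E1, E2, Fin.mk_zero, Fin.mk_one, Fin.zero_eta, Matrix.cons_val_zero,
      Matrix.cons_val_one, Matrix.of_apply, Matrix.cons_val', Matrix.cons_val_fin_one, smul_eq_mul]
    rw [e1, f1]
    push_cast
    ring
  · simp only [E1, E2, Fin.mk_zero, Fin.mk_one, Fin.zero_eta, Matrix.cons_val_zero,
      Matrix.cons_val_one, Matrix.of_apply, Matrix.cons_val', Matrix.cons_val_fin_one, smul_eq_mul]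
    rw [f3]
    push_cast
    ring
  · simp only [E1, E2, Fin.mk_zero, Fin.mk_one, Fin.zero_eta, Matrix.cons_val_zero,
      Matrix.cons_val_one, Matrix.of_apply, Matrix.cons_val', Matrix.cons_val_fin_one, smul_eq_mul]
    rw [f4]
    push_cast
    ring
  · simp only [E1, E2, Fin.mk_zero, Fin.mk_one, Fin.zero_eta, Matrix.cons_val_zero,
      Matrix.cons_val_one, Matrix.of_apply, Matrix.cons_val', Matrix.cons_val_fin_one, smul_eq_mul]
    rw [f2]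
    push_cast
    ring

lemma Gm_eq {α β γ : ℝ} (h0 : 0 ≤ α) (h1 : 0 ≤ β) (h2 : 0 ≤ γ)
    (h3 : γ ≤ 1) (X Y : Matrix κ ι ℂ) :
    (Vf ![√α, 0] ![√β * √γ, √β * √(1 - γ)] X Y)ᴴ * Vf ![√α, 0] ![√β * √γ, √β * √(1 - γ)] X Y =
      Gm X Y α β (√(γ * (α * β))) := by
  have e1 : √α * √α = α := Real.mul_self_sqrt h0
  have e2 : √β * √β = β := Real.mul_self_sqrt h1
  have e3 : √γ * √γ = γ := Real.mul_self_sqrt h2
  have e4 : √(1 - γ) * √(1 - γ) = 1 - γ := Real.mul_self_sqrt (by linarith)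
  rw [Vf_star_mul]
  unfold Gm
  simp only [Matrix.cons_val_zero, Matrix.cons_val_one, Matrix.cons_val_fin_one]
  have f1 : √α * √α + 0 * 0 = α := by rw [e1]; ring
  have f2 : (√β * √γ) * (√β * √γ) + (√β * √(1 - γ)) * (√β * √(1 - γ)) = β := by
    calc (√β * √γ) * (√β * √γ) + (√β * √(1 - γ)) * (√β * √(1 - γ)) =
        (√β * √β) * (√γ * √γ + √(1 - γ) * √(1 - γ)) := by ring
      _ = _ := by rw [e2, e3, e4]; ring
  have f3 : √α * (√β * √γ) + 0 * (√β * √(1 - γ)) = √(γ * (α * β)) := by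
    rw [Real.sqrt_mul h2, Real.sqrt_mul h0]
    ring
  rw [f1, f2, f3]

theorem Hp_eq_HX {p : ℝ} (hp : 0 < p) {α β γ : ℝ} (h0 : 0 ≤ α) (h1 : 0 ≤ β) (h2 : 0 ≤ γ)
    (h3 : γ ≤ 1) (X Y : Matrix κ ι ℂ) :
    Hp p α β γ (X * Xᴴ) (Y * Yᴴ) = HX p X Y α β (γ * (α * β)) := by
  unfold Hp HX tp
  rw [Mt_eq α β γ h0 h1 h2 h3, trF_rpow_mul hp, Gm_eq h0 h1 h2 h3]

/-- homogeneity at `(1, 1, t²)` -/
theorem HX_half {p : ℝ} (X Y : Matrix κ ι ℂ) {t : ℝ} (h0 : 0 ≤ t) (h1 : t ≤ 1) :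
    HX p X Y (1 / 2) (1 / 2) (t ^ 2 * (1 / 2 * (1 / 2))) = (1 / 2) ^ p * HX p X Y 1 1 (t ^ 2) := by
  have hps : (Gm X Y 1 1 t).PosSemidef := by
    have h := Gm_eq (α := 1) (β := 1) (γ := t ^ 2) zero_le_one zero_le_one (sq_nonneg t)
      (by nlinarith) X Y
    rw [one_mul, mul_one, Real.sqrt_sq h0] at h
    rw [← h]
    exact Matrix.posSemidef_conjTranspose_mul_self _
  unfold HX
  rw [Real.sqrt_sq h0, ← tp_smul hps (by norm_num : (0 : ℝ) ≤ 1 / 2)]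
  have e : √(t ^ 2 * (1 / 2 * (1 / 2))) = 1 / 2 * t := by
    rw [show t ^ 2 * (1 / 2 * (1 / 2)) = (1 / 2 * t) ^ 2 by ring, Real.sqrt_sq (by linarith)]
  rw [e]
  congr 1
  unfold Gm
  rw [Matrix.fromBlocks_smul]
  simp only [smul_smul, ← Complex.ofReal_mul, mul_one]

theorem HX_swap (p : ℝ) (X Y : Matrix κ ι ℂ) (al be g : ℝ) :
    HX p X Y be al g = HX p Y X al be g := by
  unfold HX tp
  rw [← trF_reindex _ (Equiv.sumComm ι ι)]
  congr 1
  unfold Gm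
  ext i j
  rcases i with i | i <;> rcases j with j | j <;> rfl

end Pool.Agent.Lib_helper19.QS
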