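import Pool.Agent.Lib_helper19.QS.Cim
import Pool.Agent.Lib_helper88.QS.CORE
import Pool.Agent.Lib_helper4.QS.Red

/-!
# MP_859019, one side a qubit pair: all strict pairs, `p > 3`
-/

set_option autoImplicit false

open scoped BigOperators ComplexOrder Kronecker MatrixOrder Topology
open MeasureTheory Set Matrix Filter

namespace Pool.Agent.Lib_helper19.QS

open Pool.Agent.RC Pool.Agent.LDK

/-- the maximum principle, unconditional -/
theorem mpg : MPG0 := Pool.Agent.QB.mpg0 fun _ hp => opCurves cim hp

/-- one side of dimension two, the other side arbitrary, strict pairs, `p > 3` -/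
theorem strictCore (p : ℝ) (hp : 3 < p) : Pool.Agent.QS.StrictCore p :=
  Pool.Agent.QB.core_of_pair p (pairStmt mpg p hp)

end Pool.Agent.Lib_helper19.QS
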