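import Pool.Agent.Lib_helper69.QB.MP

/-!
# MP_859019, one side a qubit pair: the explicit solution `(1 - γ)^p (a^p + (1 - a)^p)`
-/

set_option autoImplicit false

open scoped BigOperators Topology
open Set Filter

namespace Pool.Agent.Lib_helper19.QS

open Pool.Agent.QB

theorem C2at_rpow (φ φ' : ℝ → ℝ) (d p : ℝ) (h0 : 0 < φ 0)
    (h1 : ∀ᶠ x in 𝓝 (0 : ℝ), HasDerivAt φ (φ' x) x) (h2 : HasDerivAt φ' d 0) :
    C2at (fun x => φ x ^ p)
      (p * (p - 1) * φ 0 ^ (p - 2) * φ' 0 ^ 2 + p * φ 0 ^ (p - 1) * d) := by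
  have hc : ContinuousAt φ 0 := h1.self_of_nhds.continuousAt
  have hpos : ∀ᶠ x in 𝓝 (0 : ℝ), 0 < φ x := hc.eventually (Ioi_mem_nhds h0)
  refine ⟨fun x => φ' x * (p * φ x ^ (p - 1)), ?_, ?_⟩
  · filter_upwards [h1, hpos] with x hx hx0
    refine (hx.rpow_const (Or.inl hx0.ne')).congr_deriv ?_
    ring
  · have h3 : HasDerivAt (fun x => φ x ^ (p - 1)) (φ' 0 * (p - 1) * φ 0 ^ (p - 1 - 1)) 0 :=
      h1.self_of_nhds.rpow_const (Or.inl h0.ne')
    refine (h2.mul (h3.const_mul p)).congr_deriv ?_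
    have e : p - 1 - 1 = p - 2 := by ring
    rw [e]
    ring

/-- the explicit function -/
noncomputable def Ex (p a γ : ℝ) : ℝ := (1 - γ) ^ p * (a ^ p + (1 - a) ^ p)

lemma add_inv_deriv (s c γ : ℝ) (x : ℝ) (hx : 1 + s * x ≠ 0) :
    HasDerivAt (fun x : ℝ => 1 + c * x - γ * (1 + s * x)⁻¹) (c + γ * s * ((1 + s * x) ^ 2)⁻¹) x := by
  have h1 : HasDerivAt (fun x : ℝ => 1 + s * x) s x := by
    simpa using ((hasDerivAt_id x).const_mul s).const_add 1
  have h2 : HasDerivAt (fun x : ℝ => 1 + c * x) c x := by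
    simpa using ((hasDerivAt_id x).const_mul c).const_add 1
  refine (h2.sub ((h1.inv hx).const_mul γ)).congr_deriv ?_
  field_simp
  ring

lemma add_inv_deriv2 (s c γ : ℝ) :
    HasDerivAt (fun x : ℝ => c + γ * s * ((1 + s * x) ^ 2)⁻¹) (-(2 * γ * s ^ 2)) 0 := by
  have h1 : HasDerivAt (fun x : ℝ => 1 + s * x) s 0 := by
    simpa using ((hasDerivAt_id (0 : ℝ)).const_mul s).const_add 1
  have h2 : HasDerivAt (fun x : ℝ => (1 + s * x) ^ 2) (2 * (1 + s * 0) * s) 0 := by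
    have := h1.fun_pow 2
    simpa using this
  have h3 := (h2.inv (by simp : ((1 : ℝ) + s * 0) ^ 2 ≠ 0)).const_mul (γ * s)
  refine (h3.const_add c).congr_deriv ?_
  simp
  ring

/-- `1 + c x - γ / (1 + s x)`, to the power `p` -/
lemma C2at_line (p s c γ : ℝ) (hγ : γ < 1) :
    C2at (fun x : ℝ => (1 + c * x - γ * (1 + s * x)⁻¹) ^ p)
      (p * (p - 1) * (1 - γ) ^ (p - 2) * (c + γ * s) ^ 2 + p * (1 - γ) ^ (p - 1) * (-(2 * γ * s ^ 2))) := by
  have hne : ∀ᶠ x in 𝓝 (0 : ℝ), 1 + s * x ≠ 0 := by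
    have hc : ContinuousAt (fun x : ℝ => 1 + s * x) 0 := by fun_prop
    have h0 : ∀ᶠ x in 𝓝 (0 : ℝ), 0 < 1 + s * x := hc.eventually (Ioi_mem_nhds (by simp))
    exact h0.mono fun x hx => hx.ne'
  have h := C2at_rpow (fun x : ℝ => 1 + c * x - γ * (1 + s * x)⁻¹)
    (fun x : ℝ => c + γ * s * ((1 + s * x) ^ 2)⁻¹) (-(2 * γ * s ^ 2)) p (by simpa using hγ)
    (hne.mono fun x hx => add_inv_deriv s c γ x hx) (add_inv_deriv2 s c γ)
  simpa using h

theorem expl {p : ℝ} {a γ : ℝ} (ha0 : 0 < a) (ha1 : a < 1) (hγ1 : γ < 1) :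
    ∃ D1 D2 D3 : ℝ,
      C2at (fun x => (1 + (2 * a - 1) * x) ^ p *
        Ex p (a * (1 + x) / (1 + (2 * a - 1) * x)) (γ / (1 - x ^ 2))) D1 ∧
      C2at (fun x => (1 + x) ^ p * Ex p a (γ / (1 + x) ^ 2)) D2 ∧
      C2at (fun y => Ex p a (γ + y / (a * (1 - a)))) D3 ∧
      D2 - D1 - 4 * (a * (1 - a)) * (γ * (a * (1 - a))) * D3 = 0 := by
  have ha1' : 0 < 1 - a := by linarith
  have hb : 0 < a * (1 - a) := mul_pos ha0 ha1'
  have hκ : 0 < 1 - γ := by linarith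
  set w : ℝ := a ^ p + (1 - a) ^ p with hw
  have hlin : ∀ s : ℝ, ∀ᶠ x in 𝓝 (0 : ℝ), 0 < 1 + s * x := by
    intro s
    have hc : ContinuousAt (fun x : ℝ => 1 + s * x) 0 := by fun_prop
    exact hc.eventually (Ioi_mem_nhds (by simp))
  -- first curve
  have l1 := (C2at_line p (-1) 1 γ hγ1).const_mul (a ^ p)
  have l2 := (C2at_line p 1 (-1) γ hγ1).const_mul ((1 - a) ^ p)
  have l12 := l1.add l2
  -- second curve
  have l3 := (C2at_line p 1 1 γ hγ1).const_mul w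
  -- third curve
  have l4 : C2at (fun y : ℝ => (1 - γ + (-(a * (1 - a))⁻¹) * y) ^ p)
      (p * (p - 1) * (1 - γ) ^ (p - 2) * (-(a * (1 - a))⁻¹) ^ 2 + p * (1 - γ) ^ (p - 1) * 0) := by
    have h := C2at_rpow (fun y : ℝ => 1 - γ + (-(a * (1 - a))⁻¹) * y)
      (fun _ => -(a * (1 - a))⁻¹) 0 p (by simpa using hγ1)
      (Eventually.of_forall fun x => by
        simpa using ((hasDerivAt_id x).const_mul (-(a * (1 - a))⁻¹)).const_add (1 - γ))
      (hasDerivAt_const 0 _)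
    simpa using h
  have l4' := l4.const_mul w
  refine ⟨_, _, _, l12.congr ?_, l3.congr ?_, l4'.congr ?_, ?_⟩
  · have hsq : ∀ᶠ x in 𝓝 (0 : ℝ), 0 < 1 - γ / (1 - x ^ 2) := by
      have hc : ContinuousAt (fun x : ℝ => 1 - γ / (1 - x ^ 2)) 0 :=
        ContinuousAt.sub (by fun_prop) (ContinuousAt.div (by fun_prop) (by fun_prop) (by simp))
      exact hc.eventually (Ioi_mem_nhds (by simpa using hγ1))
    filter_upwards [hlin 1, hlin (-1), hlin (2 * a - 1), hsq] with x h1 h2 h3 h4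
    have h1' : 0 < 1 + x := by linarith
    have h2' : 0 < 1 - x := by linarith
    have e0 : 1 - a * (1 + x) / (1 + (2 * a - 1) * x) = (1 - a) * (1 - x) / (1 + (2 * a - 1) * x) := by
      rw [eq_div_iff h3.ne', sub_mul, div_mul_cancel₀ _ h3.ne']
      ring
    have q1 : (1 + (2 * a - 1) * x) ^ p * (a * (1 + x) / (1 + (2 * a - 1) * x)) ^ p =
        a ^ p * (1 + x) ^ p := by
      rw [← Real.mul_rpow h3.le (by positivity), mul_div_cancel₀ _ h3.ne',
        Real.mul_rpow ha0.le h1'.le]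
    have q2 : (1 + (2 * a - 1) * x) ^ p * ((1 - a) * (1 - x) / (1 + (2 * a - 1) * x)) ^ p =
        (1 - a) ^ p * (1 - x) ^ p := by
      rw [← Real.mul_rpow h3.le (by positivity), mul_div_cancel₀ _ h3.ne',
        Real.mul_rpow ha1'.le h2'.le]
    have r1 : (1 + 1 * x - γ * (1 + -1 * x)⁻¹) ^ p = (1 - γ / (1 - x ^ 2)) ^ p * (1 + x) ^ p := by
      rw [← Real.mul_rpow h4.le h1'.le]
      congr 1
      have h5 : 1 - x ≠ 0 := h2'.ne'
      have h6 : 1 + x ≠ 0 := h1'.ne'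
      rw [show (1 : ℝ) - x ^ 2 = (1 + x) * (1 - x) by ring, show (1 : ℝ) + -1 * x = 1 - x by ring,
        one_mul]
      field_simp
    have r2 : (1 + -1 * x - γ * (1 + 1 * x)⁻¹) ^ p = (1 - γ / (1 - x ^ 2)) ^ p * (1 - x) ^ p := by
      rw [← Real.mul_rpow h4.le h2'.le]
      congr 1
      have h5 : 1 - x ≠ 0 := h2'.ne'
      have h6 : 1 + x ≠ 0 := h1'.ne'
      rw [show (1 : ℝ) - x ^ 2 = (1 + x) * (1 - x) by ring, show (1 : ℝ) + -1 * x = 1 - x by ring,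
        one_mul]
      field_simp
    unfold Ex
    rw [e0, r1, r2]
    linear_combination (-(1 - γ / (1 - x ^ 2)) ^ p) * q1 - (1 - γ / (1 - x ^ 2)) ^ p * q2
  · have hsq : ∀ᶠ x in 𝓝 (0 : ℝ), 0 < 1 - γ / (1 + x) ^ 2 := by
      have hc : ContinuousAt (fun x : ℝ => 1 - γ / (1 + x) ^ 2) 0 :=
        ContinuousAt.sub (by fun_prop) (ContinuousAt.div (by fun_prop) (by fun_prop) (by simp))
      exact hc.eventually (Ioi_mem_nhds (by simpa using hγ1))
    filter_upwards [hlin 1, hsq] with x h1 h4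
    have h1' : 0 < 1 + x := by linarith
    have r1 : (1 + 1 * x - γ * (1 + 1 * x)⁻¹) ^ p = (1 - γ / (1 + x) ^ 2) ^ p * (1 + x) ^ p := by
      rw [← Real.mul_rpow h4.le h1'.le]
      congr 1
      rw [one_mul]
      field_simp
    unfold Ex
    rw [r1, hw]
    ring
  · refine Eventually.of_forall fun y => ?_
    unfold Ex
    have e : 1 - γ + -(a * (1 - a))⁻¹ * y = 1 - (γ + y / (a * (1 - a))) := by
      rw [div_eq_mul_inv]; ring
    simp only [e, hw]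
    ring
  · rw [hw]
    field_simp
    ring

end Pool.Agent.Lib_helper19.QS
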