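import Pool.Agent.Lib_helper19.QS.CQ

/-!
# MP_859019, one side a qubit pair: the two-dimensional side against an arbitrary side
-/

set_option autoImplicit false

open scoped BigOperators ComplexOrder Kronecker MatrixOrder Topology
open MeasureTheory Set Matrix Filter

namespace Pool.Agent.Lib_helper19.QS

open Pool.Agent.RC Pool.Agent.LDK Pool.Agent.LDK.DUAL Pool.Agent.QB

variable {κ : Type} [Fintype κ] [DecidableEq κ]

lemma exists_XX {S : Matrix κ κ ℂ} (hS : S.PosSemidef) : ∃ X : Matrix κ κ ℂ, S = X * Xᴴ := by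
  obtain ⟨Y, hY⟩ := exists_factor hS
  exact ⟨Yᴴ, by rw [hY, Matrix.conjTranspose_conjTranspose]⟩

lemma Hp_orth {p : ℝ} (hp : 0 < p) {α β γ : ℝ} (h0 : 0 ≤ α) (h1 : 0 ≤ β) (h2 : 0 ≤ γ) (h3 : γ ≤ 1)
    (hz : γ * (α * β) = 0) {S T : Matrix κ κ ℂ} (hS : S.PosSemidef) (hT : T.PosSemidef) :
    Hp p α β γ S T = α ^ p * tp p S + β ^ p * tp p T := by
  obtain ⟨X, rfl⟩ := exists_XX hS
  obtain ⟨Y, rfl⟩ := exists_XX hT
  rw [Hp_eq_HX hp h0 h1 h2 h3, hz, HX_orth hp _ _ h0 h1]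

lemma Hp_par {p : ℝ} (hp : 0 < p) {α β : ℝ} (h0 : 0 ≤ α) (h1 : 0 ≤ β)
    {S T : Matrix κ κ ℂ} (hS : S.PosSemidef) (hT : T.PosSemidef) :
    Hp p α β 1 S T = tp p ((α : ℂ) • S + (β : ℂ) • T) := by
  obtain ⟨X, rfl⟩ := exists_XX hS
  obtain ⟨Y, rfl⟩ := exists_XX hT
  rw [Hp_eq_HX hp h0 h1 zero_le_one le_rfl, one_mul, HX_par hp _ _ h0 h1]

lemma Mt_psd {α β γ : ℝ} (h0 : 0 ≤ α) (h1 : 0 ≤ β) (h2 : 0 ≤ γ) (h3 : γ ≤ 1)
    {S T : Matrix κ κ ℂ} (hS : S.PosSemidef) (hT : T.PosSemidef) : (Mt α β γ S T).PosSemidef := by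
  obtain ⟨X, rfl⟩ := exists_XX hS
  obtain ⟨Y, rfl⟩ := exists_XX hT
  rw [Mt_eq α β γ h0 h1 h2 h3]
  exact Matrix.posSemidef_self_mul_conjTranspose _

lemma Mt_smul (s α β γ : ℝ) (S T : Matrix κ κ ℂ) :
    Mt (s * α) (s * β) γ S T = (s : ℂ) • Mt α β γ S T := by
  unfold Mt
  push_cast
  module

lemma Hp_hom {p : ℝ} {s α β γ : ℝ} (hs : 0 ≤ s) (h0 : 0 ≤ α) (h1 : 0 ≤ β) (h2 : 0 ≤ γ) (h3 : γ ≤ 1)
    {S T : Matrix κ κ ℂ} (hS : S.PosSemidef) (hT : T.PosSemidef) :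
    Hp p (s * α) (s * β) γ S T = s ^ p * Hp p α β γ S T := by
  unfold Hp
  rw [Mt_smul]
  exact tp_smul (Mt_psd h0 h1 h2 h3 hS hT) hs

/-- the value of the second factor -/
lemma Hp_scalar {p : ℝ} {α β γ : ℝ} (h0 : 0 ≤ α) (h1 : 0 ≤ β) (h2 : 0 ≤ γ) (h3 : γ ≤ 1)
    {x y : ℝ} (hx : 0 ≤ x) (hy : 0 ≤ y) :
    Hp p α β γ ((x : ℂ) • (1 : Matrix κ κ ℂ)) ((y : ℂ) • (1 : Matrix κ κ ℂ)) =
      tp p (((α * x : ℝ) : ℂ) • E1 + ((β * y : ℝ) : ℂ) • E2 γ) * Fintype.card κ := by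
  have e2g : √γ * √γ = γ := Real.mul_self_sqrt h2
  have e1g : √(1 - γ) * √(1 - γ) = 1 - γ := Real.mul_self_sqrt (by linarith)
  have hE1 : (E1 : Matrix (Fin 2) (Fin 2) ℂ).PosSemidef := by
    have e : (E1 : Matrix (Fin 2) (Fin 2) ℂ) = vecMulVec ![1, 0] (star ![1, 0]) := by
      ext i j
      fin_cases i <;> fin_cases j <;> simp [E1, vecMulVec_apply]
    rw [e]
    exact Matrix.posSemidef_vecMulVec_self_star _
  have hE2 : (E2 γ : Matrix (Fin 2) (Fin 2) ℂ).PosSemidef := by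
    have e : (E2 γ : Matrix (Fin 2) (Fin 2) ℂ) =
        vecMulVec ![((√γ : ℝ) : ℂ), ((√(1 - γ) : ℝ) : ℂ)]
          (star ![((√γ : ℝ) : ℂ), ((√(1 - γ) : ℝ) : ℂ)]) := by
      ext i j
      fin_cases i <;> fin_cases j
      · simp [E2, vecMulVec_apply]
        rw [← Complex.ofReal_mul, e2g]
      · simp [E2, vecMulVec_apply]
      · simp [E2, vecMulVec_apply]
        ring
      · simp [E2, vecMulVec_apply]
        rw [← Complex.ofReal_mul, e1g]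
        push_cast
        ring
    rw [e]
    exact Matrix.posSemidef_vecMulVec_self_star _
  have hps : (((α * x : ℝ) : ℂ) • E1 + ((β * y : ℝ) : ℂ) • E2 γ).PosSemidef :=
    (psd_smul hE1 (mul_nonneg h0 hx)).add (psd_smul hE2 (mul_nonneg h1 hy))
  have e : Mt α β γ ((x : ℂ) • (1 : Matrix κ κ ℂ)) ((y : ℂ) • (1 : Matrix κ κ ℂ)) =
      (((α * x : ℝ) : ℂ) • E1 + ((β * y : ℝ) : ℂ) • E2 γ) ⊗ₖ (1 : Matrix κ κ ℂ) := by
    unfold Mt
    rw [Matrix.kronecker_smul, Matrix.kronecker_smul, Matrix.add_kronecker, Matrix.smul_kronecker,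
      Matrix.smul_kronecker]
    push_cast
    module
  unfold Hp
  rw [e]
  have := tp_kron (α := p) hps (Matrix.PosSemidef.one : (1 : Matrix κ κ ℂ).PosSemidef)
  rw [tp_one] at this
  exact this

/-- CQ for both signs of `v` -/
lemma cq_abs' (hM : MPG0) {p : ℝ} (hp : 3 < p) {A D : Matrix κ κ ℂ} (h : IsPsdPair A D) {v : ℝ}
    (hv : |v| ≤ 1) :
    (cc p v - 1) * G p A D ≤ (2 ^ (p - 1) - 1) *
      ((tp p (A + (v : ℂ) • D) + tp p (A - (v : ℂ) • D)) / 2 - tp p A) := by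
  have k := cqStmt hM p hp κ A D h |v| (abs_nonneg v) hv
  rcases le_total 0 v with h0 | h0
  · rw [abs_of_nonneg h0] at k
    exact k
  · rw [abs_of_nonpos h0] at k
    have e1 : cc p (-v) = cc p v := by
      unfold cc
      rw [sub_neg_eq_add, ← sub_eq_add_neg]
      ring
    have e2 : G p A (((-v : ℝ) : ℂ) • D) =
        (tp p (A + (v : ℂ) • D) + tp p (A - (v : ℂ) • D)) / 2 - tp p A := by
      unfold G tp
      rw [Complex.ofReal_neg, neg_smul, sub_neg_eq_add, ← sub_eq_add_neg]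
      ring
    rwa [e1, e2] at k

/-- the common form of the boundary values -/
lemma bd (hM : MPG0) {p : ℝ} (hp : 3 < p) {A D : Matrix κ κ ℂ} (h : IsPsdPair A D) {v : ℝ}
    (hv : |v| ≤ 1) :
    0 ≤ (2 ^ (p - 1) - 1) / 2 * (tp p (A + (v : ℂ) • D) + tp p (A - (v : ℂ) • D)) -
      (2 ^ (p - 1) - 1) * tp p A - G p A D * (((1 + v) ^ p + (1 - v) ^ p) / 2 - 1) := by
  have k := cq_abs' hM hp h hv
  unfold cc at k
  linarith

/-- PAIR (helper69's `PAIRStmt`) -/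
theorem pairStmt (hM : MPG0) :
    ∀ (p : ℝ), 3 < p → ∀ α β γ v₁ v₂ : ℝ, 0 ≤ α → 0 ≤ β → 0 ≤ γ → γ ≤ 1 → |v₁| ≤ 1 → |v₂| ≤ 1 →
    ∀ (κ : Type) [Fintype κ] [DecidableEq κ] (A D : Matrix κ κ ℂ), IsPsdPair A D →
    let A₁ : Matrix (Fin 2) (Fin 2) ℂ := (α : ℂ) • E1 + (β : ℂ) • E2 γ
    let D₁ : Matrix (Fin 2) (Fin 2) ℂ := ((v₁ * α : ℝ) : ℂ) • E1 + ((v₂ * β : ℝ) : ℂ) • E2 γ
    G p A₁ D₁ * G p A D ≤ (2 ^ (p - 1) - 1) * G p (A₁ ⊗ₖ A) (D₁ ⊗ₖ D) := by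
  intro p hp α β γ v₁ v₂ hα hβ hγ0 hγ1 hv₁ hv₂ κ _ _ A D h A₁ D₁
  have hp0 : 0 < p := by linarith
  rcases isEmpty_or_nonempty κ with he | hne
  · have hz : ∀ M : Matrix κ κ ℂ, trF (fun x => x ^ p) M = 0 := by
      intro M
      unfold trF
      split_ifs
      · simp
      · rfl
    have hz' : ∀ M : Matrix (Fin 2 × κ) (Fin 2 × κ) ℂ, trF (fun x => x ^ p) M = 0 := by
      intro M
      unfold trF
      split_ifs
      · simp
      · rfl
    unfold G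
    simp [hz, hz']
  set n : ℝ := (Fintype.card κ : ℝ) with hn
  have hn0 : n ≠ 0 := by rw [hn]; exact_mod_cast Fintype.card_ne_zero
  obtain ⟨l1, u1⟩ := abs_le.1 hv₁
  obtain ⟨l2, u2⟩ := abs_le.1 hv₂
  set K : ℝ := 2 ^ (p - 1) - 1 with hK
  have hK0 : 0 ≤ K := by
    have := one_lt_c1 p (by linarith)
    rw [hK]; linarith
  set g : ℝ := G p A D with hg
  -- letters
  have pA := h.pos
  have p1 := psd_add_smul h hv₁
  have p2 := psd_add_smul h hv₂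
  have m1 := psd_sub_smul h hv₁
  have m2 := psd_sub_smul h hv₂
  have hone : ∀ x : ℝ, 0 ≤ x → ((x : ℂ) • (1 : Matrix κ κ ℂ)).PosSemidef := fun x hx =>
    psd_smul Matrix.PosSemidef.one hx
  set S : Fin 6 → Matrix κ κ ℂ := ![A + (v₁ : ℂ) • D, A - (v₁ : ℂ) • D, A,
    ((1 + v₁ : ℝ) : ℂ) • 1, ((1 - v₁ : ℝ) : ℂ) • 1, ((1 : ℝ) : ℂ) • 1] with hS
  set T : Fin 6 → Matrix κ κ ℂ := ![A + (v₂ : ℂ) • D, A - (v₂ : ℂ) • D, A,
    ((1 + v₂ : ℝ) : ℂ) • 1, ((1 - v₂ : ℝ) : ℂ) • 1, ((1 : ℝ) : ℂ) • 1] with hT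
  set c : Fin 6 → ℝ := ![K / 2, K / 2, -K, -(g / (2 * n)), -(g / (2 * n)), g / n] with hc
  set Φ : ℝ → ℝ → ℝ := fun a γ => ∑ j, c j * Hp p a (1 - a) γ (S j) (T j) +
      0 * ((1 - γ) ^ p * (a ^ p + (1 - a) ^ p)) with hΦ
  -- the value of the function `∑ c_j Hp`
  set Ψ : ℝ → ℝ → ℝ → ℝ := fun α β γ =>
    K / 2 * (Hp p α β γ (A + (v₁ : ℂ) • D) (A + (v₂ : ℂ) • D) +
      Hp p α β γ (A - (v₁ : ℂ) • D) (A - (v₂ : ℂ) • D)) - K * Hp p α β γ A A -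
    g * ((Hp p α β γ (((1 + v₁ : ℝ) : ℂ) • (1 : Matrix κ κ ℂ)) (((1 + v₂ : ℝ) : ℂ) • 1) / n +
      Hp p α β γ (((1 - v₁ : ℝ) : ℂ) • (1 : Matrix κ κ ℂ)) (((1 - v₂ : ℝ) : ℂ) • 1) / n) / 2 -
      Hp p α β γ (((1 : ℝ) : ℂ) • (1 : Matrix κ κ ℂ)) (((1 : ℝ) : ℂ) • 1) / n) with hΨ
  have hval : ∀ a γ : ℝ, Φ a γ = Ψ a (1 - a) γ := by
    intro a γ
    simp only [hΦ, hΨ, Fin.sum_univ_six]
    simp only [hS, hT, hc, Matrix.cons_val]
    field_simp
    ring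
  -- orthogonal vectors
  have horth : ∀ a γ : ℝ, 0 ≤ a → a ≤ 1 → 0 ≤ γ → γ ≤ 1 → γ * (a * (1 - a)) = 0 → 0 ≤ Φ a γ := by
    intro a γ h0 h1 h2 h3 hz
    have h1' : 0 ≤ 1 - a := by linarith
    rw [hval]
    simp only [hΨ]
    rw [Hp_orth hp0 h0 h1' h2 h3 hz p1 p2, Hp_orth hp0 h0 h1' h2 h3 hz m1 m2,
      Hp_orth hp0 h0 h1' h2 h3 hz pA pA,
      Hp_orth hp0 h0 h1' h2 h3 hz (hone _ (by linarith)) (hone _ (by linarith)),
      Hp_orth hp0 h0 h1' h2 h3 hz (hone _ (by linarith)) (hone _ (by linarith)),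
      Hp_orth hp0 h0 h1' h2 h3 hz (hone _ zero_le_one) (hone _ zero_le_one),
      tp_smul_one (by linarith), tp_smul_one (by linarith), tp_smul_one (by linarith),
      tp_smul_one (by linarith), tp_smul_one zero_le_one, ← hn, Real.one_rpow]
    have b1 := bd hM hp h hv₁
    have b2 := bd hM hp h hv₂
    rw [← hK, ← hg] at b1 b2
    have q1 := mul_nonneg (Real.rpow_nonneg h0 p) b1
    have q2 := mul_nonneg (Real.rpow_nonneg h1' p) b2
    refine le_trans (add_nonneg q1 q2) (le_of_eq ?_)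
    field_simp
    ring
  have key := hM p hp (Fin 6) (fun _ => κ) S T c 0 ?_ ?_ ?_ Φ (fun a γ => rfl) ?_ ?_ ?_ ?_
  · -- conclusion
    have hΨG : Ψ α β γ = K * G p (A₁ ⊗ₖ A) (D₁ ⊗ₖ D) - G p A₁ D₁ * g := by
      have e1 : A₁ ⊗ₖ A + D₁ ⊗ₖ D = Mt α β γ (A + (v₁ : ℂ) • D) (A + (v₂ : ℂ) • D) := by
        simp only [A₁, D₁, Mt, Matrix.kronecker_add, Matrix.kronecker_smul, Matrix.add_kronecker,
          Matrix.smul_kronecker]
        push_cast
        module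
      have e2 : A₁ ⊗ₖ A - D₁ ⊗ₖ D = Mt α β γ (A - (v₁ : ℂ) • D) (A - (v₂ : ℂ) • D) := by
        simp only [A₁, D₁, Mt, sub_eq_add_neg, Matrix.kronecker_add, Matrix.kronecker_smul,
          Matrix.add_kronecker, Matrix.smul_kronecker, ← neg_smul]
        push_cast
        module
      have e3 : A₁ ⊗ₖ A = Mt α β γ A A := by
        simp only [A₁, Mt, Matrix.add_kronecker, Matrix.smul_kronecker]
      have e4 : A₁ + D₁ = ((α * (1 + v₁) : ℝ) : ℂ) • E1 + ((β * (1 + v₂) : ℝ) : ℂ) • E2 γ := by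
        simp only [A₁, D₁]
        push_cast
        module
      have e5 : A₁ - D₁ = ((α * (1 - v₁) : ℝ) : ℂ) • E1 + ((β * (1 - v₂) : ℝ) : ℂ) • E2 γ := by
        simp only [A₁, D₁]
        push_cast
        module
      have e6 : A₁ = ((α * 1 : ℝ) : ℂ) • E1 + ((β * 1 : ℝ) : ℂ) • E2 γ := by
        simp only [A₁, mul_one]
      have s1 := Hp_scalar (κ := κ) (p := p) hα hβ hγ0 hγ1 (x := 1 + v₁) (y := 1 + v₂)
        (by linarith) (by linarith)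
      have s2 := Hp_scalar (κ := κ) (p := p) hα hβ hγ0 hγ1 (x := 1 - v₁) (y := 1 - v₂)
        (by linarith) (by linarith)
      have s3 := Hp_scalar (κ := κ) (p := p) hα hβ hγ0 hγ1 (x := 1) (y := 1) zero_le_one zero_le_one
      rw [← e4, ← hn] at s1
      rw [← e5, ← hn] at s2
      rw [← e6, ← hn] at s3
      simp only [hΨ]
      rw [s1, s2, s3]
      have gA : G p (A₁ ⊗ₖ A) (D₁ ⊗ₖ D) =
          (Hp p α β γ (A + (v₁ : ℂ) • D) (A + (v₂ : ℂ) • D) +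
            Hp p α β γ (A - (v₁ : ℂ) • D) (A - (v₂ : ℂ) • D)) / 2 - Hp p α β γ A A := by
        unfold G Hp
        rw [e1, e2, e3]
      have gD : G p A₁ D₁ = (tp p (A₁ + D₁) + tp p (A₁ - D₁)) / 2 - tp p A₁ := rfl
      rw [gA, gD]
      field_simp
    have hΨ0 : 0 ≤ Ψ α β γ := by
      rcases eq_or_lt_of_le (add_nonneg hα hβ) with h0 | hs
      · -- both weights vanish
        have ha : α = 0 := by linarith
        have hb : β = 0 := by linarith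
        simp only [hΨ]
        rw [ha, hb]
        have hz : γ * ((0 : ℝ) * 0) = 0 := by ring
        rw [Hp_orth hp0 le_rfl le_rfl hγ0 hγ1 hz p1 p2, Hp_orth hp0 le_rfl le_rfl hγ0 hγ1 hz m1 m2,
          Hp_orth hp0 le_rfl le_rfl hγ0 hγ1 hz pA pA,
          Hp_orth hp0 le_rfl le_rfl hγ0 hγ1 hz (hone _ (by linarith)) (hone _ (by linarith)),
          Hp_orth hp0 le_rfl le_rfl hγ0 hγ1 hz (hone _ (by linarith)) (hone _ (by linarith)),
          Hp_orth hp0 le_rfl le_rfl hγ0 hγ1 hz (hone _ zero_le_one) (hone _ zero_le_one),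
          Real.zero_rpow hp0.ne']
        simp
      · set s : ℝ := α + β with hsdef
        set a : ℝ := α / s with ha
        have ha0 : 0 ≤ a := div_nonneg hα hs.le
        have ha1 : a ≤ 1 := by rw [ha, div_le_one hs]; linarith
        have ha1' : 0 ≤ 1 - a := by linarith
        have e1 : s * a = α := by rw [ha]; field_simp
        have e2 : s * (1 - a) = β := by rw [mul_sub, e1, hsdef]; ring
        have k := key a ⟨ha0, ha1⟩ γ ⟨hγ0, hγ1⟩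
        rw [hval] at k
        have k2 := mul_nonneg (Real.rpow_nonneg hs.le p) k
        refine le_trans k2 (le_of_eq ?_)
        simp only [hΨ]
        rw [← e1, ← e2]
        rw [Hp_hom hs.le ha0 ha1' hγ0 hγ1 p1 p2, Hp_hom hs.le ha0 ha1' hγ0 hγ1 m1 m2,
          Hp_hom hs.le ha0 ha1' hγ0 hγ1 pA pA,
          Hp_hom hs.le ha0 ha1' hγ0 hγ1 (hone _ (by linarith)) (hone _ (by linarith)),
          Hp_hom hs.le ha0 ha1' hγ0 hγ1 (hone _ (by linarith)) (hone _ (by linarith)),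
          Hp_hom hs.le ha0 ha1' hγ0 hγ1 (hone _ zero_le_one) (hone _ zero_le_one)]
        ring
    rw [hΨG] at hΨ0
    linarith
  · intro j
    fin_cases j
    · exact p1
    · exact m1
    · exact pA
    · exact hone _ (by linarith)
    · exact hone _ (by linarith)
    · exact hone _ zero_le_one
  · intro j
    fin_cases j
    · exact p2
    · exact m2
    · exact pA
    · exact hone _ (by linarith)
    · exact hone _ (by linarith)
    · exact hone _ zero_le_one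
  · intro j
    fin_cases j
    · left; exact div_nonneg hK0 zero_le_two
    · left; exact div_nonneg hK0 zero_le_two
    · right; simp [hS, hT]
    · right; simp [hS, hT, smul_smul, mul_comm]
    · right; simp [hS, hT, smul_smul, mul_comm]
    · right; simp [hS, hT]
  · rintro γ ⟨h2, h3⟩
    exact horth 0 γ le_rfl zero_le_one h2 h3 (by ring)
  · rintro γ ⟨h2, h3⟩
    exact horth 1 γ zero_le_one le_rfl h2 h3 (by ring)
  · rintro a ⟨h0, h1⟩
    exact horth a 0 h0 h1 le_rfl zero_le_one (by ring)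
  · -- parallel vectors
    rintro a ⟨h0, h1⟩
    have h1' : 0 ≤ 1 - a := by linarith
    set v : ℝ := a * v₁ + (1 - a) * v₂ with hv
    have hvle : |v| ≤ 1 := by
      rw [abs_le]
      constructor
      · nlinarith
      · nlinarith
    rw [hval]
    simp only [hΨ]
    rw [Hp_par hp0 h0 h1' p1 p2, Hp_par hp0 h0 h1' m1 m2, Hp_par hp0 h0 h1' pA pA,
      Hp_par hp0 h0 h1' (hone _ (by linarith)) (hone _ (by linarith)),
      Hp_par hp0 h0 h1' (hone _ (by linarith)) (hone _ (by linarith)),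
      Hp_par hp0 h0 h1' (hone _ zero_le_one) (hone _ zero_le_one)]
    have e1 : (a : ℂ) • (A + (v₁ : ℂ) • D) + ((1 - a : ℝ) : ℂ) • (A + (v₂ : ℂ) • D) =
        A + (v : ℂ) • D := by
      rw [hv]; push_cast; module
    have e2 : (a : ℂ) • (A - (v₁ : ℂ) • D) + ((1 - a : ℝ) : ℂ) • (A - (v₂ : ℂ) • D) =
        A - (v : ℂ) • D := by
      rw [hv]; push_cast; module
    have e3 : (a : ℂ) • A + ((1 - a : ℝ) : ℂ) • A = A := by
      push_cast; module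
    have e4 : (a : ℂ) • (((1 + v₁ : ℝ) : ℂ) • (1 : Matrix κ κ ℂ)) +
        ((1 - a : ℝ) : ℂ) • (((1 + v₂ : ℝ) : ℂ) • (1 : Matrix κ κ ℂ)) =
        ((1 + v : ℝ) : ℂ) • (1 : Matrix κ κ ℂ) := by
      rw [hv]; push_cast; module
    have e5 : (a : ℂ) • (((1 - v₁ : ℝ) : ℂ) • (1 : Matrix κ κ ℂ)) +
        ((1 - a : ℝ) : ℂ) • (((1 - v₂ : ℝ) : ℂ) • (1 : Matrix κ κ ℂ)) =
        ((1 - v : ℝ) : ℂ) • (1 : Matrix κ κ ℂ) := by
      rw [hv]; push_cast; module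
    have e6 : (a : ℂ) • (((1 : ℝ) : ℂ) • (1 : Matrix κ κ ℂ)) +
        ((1 - a : ℝ) : ℂ) • (((1 : ℝ) : ℂ) • (1 : Matrix κ κ ℂ)) =
        ((1 : ℝ) : ℂ) • (1 : Matrix κ κ ℂ) := by
      push_cast; module
    obtain ⟨lv, uv⟩ := abs_le.1 hvle
    rw [e1, e2, e3, e4, e5, e6, tp_smul_one (by linarith), tp_smul_one (by linarith),
      tp_smul_one zero_le_one, ← hn, Real.one_rpow]
    have b := bd hM hp h hvle
    rw [← hK, ← hg] at b
    refine le_trans b (le_of_eq ?_)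
    field_simp

end Pool.Agent.Lib_helper19.QS
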