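import Pool.Agent.Lib_helper19.QS.Trp
import Pool.Agent.Lib_helper21.QS.AlgStmt
import Pool.Agent.Lib_helper88.QS.SIM
import Pool.Agent.Lib_helper12.QS.S1CF
import Pool.Agent.Lib_helper54.QS.MPGFin

/-!
# MP_859019, one side a qubit pair: the operator inequality along the three curves
-/

set_option autoImplicit false

open scoped BigOperators ComplexOrder Kronecker MatrixOrder Topology Real
open MeasureTheory Set Matrix Filter

namespace Pool.Agent.Lib_helper19.QS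

open Pool.Agent.RC Pool.Agent.LDK Pool.Agent.LDK.DUAL Pool.Agent.QB

/-- helper69's `CIMStmt` -/
def CIM0 : Prop :=
  ∀ (m : Type) [Fintype m] [DecidableEq m] (M0 M1 : Matrix m m ℂ) (p c ρ : ℝ), 0 < ρ → ρ < c →
    ∀ h : ℝ → ℝ, (∀ᶠ x : ℝ in 𝓝 (0 : ℝ), (∀ z ∈ Metric.sphere (c : ℂ) ρ,
        (z • (1 : Matrix m m ℂ) - (M0 + (x : ℂ) • M1)).det ≠ 0) ∧
      ((h x : ℝ) : ℂ) = (2 * π * Complex.I : ℂ)⁻¹ * ∮ z in C(c, ρ), z ^ (p : ℂ) *
        ((z • (1 : Matrix m m ℂ) - (M0 + (x : ℂ) • M1))⁻¹).trace) →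
    ∃ D : ℝ, C2at h D ∧ (D : ℂ) = p * (2 * π * Complex.I : ℂ)⁻¹ * ∮ z in C(c, ρ),
      z ^ ((p - 1 : ℝ) : ℂ) * ((z • (1 : Matrix m m ℂ) - M0)⁻¹ * M1 *
        ((z • (1 : Matrix m m ℂ) - M0)⁻¹ * M1)).trace

variable {m κ : Type} [Fintype m] [DecidableEq m] [Fintype κ] [DecidableEq κ]

lemma exists_circle {M : Matrix m m ℂ} (hM : M.PosDef) :
    ∃ c ρ' ρ : ℝ, 0 < ρ ∧ ρ' < ρ ∧ ρ < c ∧ ∀ i, |hM.1.eigenvalues i - c| ≤ ρ' := by
  obtain ⟨lo, hlo, hle⟩ : ∃ lo : ℝ, 0 < lo ∧ ∀ i, lo ≤ hM.1.eigenvalues i := by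
    rcases isEmpty_or_nonempty m with he | hne
    · exact ⟨1, one_pos, fun i => (he.false i).elim⟩
    · obtain ⟨i0, h0⟩ := Finite.exists_min hM.1.eigenvalues
      exact ⟨_, hM.eigenvalues_pos i0, h0⟩
  set hi : ℝ := ∑ i, hM.1.eigenvalues i + 1 with hhi
  have hnn : ∀ i, 0 ≤ hM.1.eigenvalues i := fun i => (hM.eigenvalues_pos i).le
  have hup : ∀ i, hM.1.eigenvalues i ≤ hi := by
    intro i
    have := Finset.single_le_sum (fun j _ => hnn j) (Finset.mem_univ i)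
    linarith
  have hhi0 : 0 < hi := by
    have := Finset.sum_nonneg (fun j (_ : j ∈ Finset.univ) => hnn j)
    linarith
  refine ⟨hi + lo, hi, hi + lo / 2, by linarith, by linarith, by linarith, fun i => ?_⟩
  have h1 := hle i
  have h2 := hup i
  rw [abs_le]
  constructor <;> linarith

lemma ev_circle {M : ℝ → Matrix m m ℂ} (hh : ∀ x, (M x).IsHermitian) (hc : ContinuousAt M 0)
    {c ρ' ρ : ℝ} (hρ : ρ' < ρ) (h0 : ∀ i, |(hh 0).eigenvalues i - c| ≤ ρ') :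
    ∀ᶠ x in 𝓝 (0 : ℝ), ∀ i, |(hh x).eigenvalues i - c| < ρ := by
  set f : ℝ → ℝ := fun x => max 0 ((|x - c| - ρ') / (ρ - ρ')) with hf
  have hfc : Continuous f := by
    rw [hf]
    fun_prop
  have hf0 : ∀ x, 0 ≤ f x := fun x => le_max_left _ _
  have hd : 0 < ρ - ρ' := by linarith
  have hz : trF f (M 0) = 0 := by
    unfold trF
    rw [dif_pos (hh 0)]
    refine Finset.sum_eq_zero fun i _ => ?_
    have h1 : |(hh 0).eigenvalues i - c| - ρ' ≤ 0 := by linarith [h0 i]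
    exact max_eq_left (div_nonpos_of_nonpos_of_nonneg h1 hd.le)
  have hcont : Tendsto (fun x => trF f (M x)) (𝓝 0) (𝓝 (trF f (M 0))) := by
    refine tendsto_of_seq_tendsto fun u hu => ?_
    exact tendsto_trF f hfc _ _ (fun j => hh (u j)) (hh 0) (hc.tendsto.comp hu)
  rw [hz] at hcont
  have hev : ∀ᶠ x in 𝓝 (0 : ℝ), trF f (M x) < 1 := hcont.eventually_lt_const one_pos
  filter_upwards [hev] with x hx i
  by_contra hn
  push Not at hn
  unfold trF at hx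
  rw [dif_pos (hh x)] at hx
  have h1 : f ((hh x).eigenvalues i) ≤ ∑ j, f ((hh x).eigenvalues j) :=
    Finset.single_le_sum (fun j _ => hf0 _) (Finset.mem_univ i)
  have h2 : 1 ≤ f ((hh x).eigenvalues i) := by
    refine le_trans ?_ (le_max_right _ _)
    rw [one_le_div hd]
    linarith
  linarith

lemma continuous_Mt3 (S T : Matrix κ κ ℂ) :
    Continuous fun q : ℝ × ℝ × ℝ => Mt q.1 q.2.1 q.2.2 S T := by
  refine continuous_matrix fun i j => ?_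
  obtain ⟨i, k⟩ := i
  obtain ⟨j, l⟩ := j
  simp only [Mt, Matrix.add_apply, Matrix.smul_apply, kroneckerMap_apply, smul_eq_mul]
  fin_cases i <;> fin_cases j <;> simp [E1, E2] <;> fun_prop

/-- one affine curve -/
lemma curve (hCIM : CIM0) {S T : Matrix κ κ ℂ} (hS : S.PosDef) (hT : T.PosDef) (p : ℝ)
    {c ρ' ρ : ℝ} (hρ0 : 0 < ρ) (hρ : ρ' < ρ) (hρc : ρ < c) {α β γ : ℝ → ℝ}
    (cα : ContinuousAt α 0) (cβ : ContinuousAt β 0) (cγ : ContinuousAt γ 0)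
    (hα : 0 < α 0) (hβ : 0 < β 0) (hγ0 : 0 < γ 0) (hγ1 : γ 0 < 1)
    (hl : ∀ i, |(Mt_herm hS.1 hT.1 (α 0) (β 0) (γ 0)).eigenvalues i - c| ≤ ρ')
    (M0 N : Matrix (κ ⊕ κ) (κ ⊕ κ) ℂ)
    (hM : ∀ᶠ x in 𝓝 (0 : ℝ), Maf (α x) (β x) (γ x * (α x * β x)) S T = M0 + (x : ℂ) • N) :
    ∃ D : ℝ, C2at (fun x => Hp p (α x) (β x) (γ x) S T) D ∧
      (D : ℂ) = p * (2 * π * Complex.I : ℂ)⁻¹ * ∮ z in C(c, ρ),
        z ^ ((p - 1 : ℝ) : ℂ) * ((z • (1 : Matrix (κ ⊕ κ) (κ ⊕ κ) ℂ) - M0)⁻¹ * N *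
          ((z • (1 : Matrix (κ ⊕ κ) (κ ⊕ κ) ℂ) - M0)⁻¹ * N)).trace := by
  refine hCIM (κ ⊕ κ) M0 N p c ρ hρ0 hρc _ ?_
  have hcM : ContinuousAt (fun x => Mt (α x) (β x) (γ x) S T) 0 := by
    have h1 : ContinuousAt (fun x => ((α x, β x, γ x) : ℝ × ℝ × ℝ)) 0 := cα.prodMk (cβ.prodMk cγ)
    exact ContinuousAt.comp (f := fun x => ((α x, β x, γ x) : ℝ × ℝ × ℝ))
      (continuous_Mt3 S T).continuousAt h1
  have hev := ev_circle (fun x => Mt_herm hS.1 hT.1 (α x) (β x) (γ x)) hcM hρ hl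
  have e1 : ∀ᶠ x in 𝓝 (0 : ℝ), 0 < α x := cα.eventually (Ioi_mem_nhds hα)
  have e2 : ∀ᶠ x in 𝓝 (0 : ℝ), 0 < β x := cβ.eventually (Ioi_mem_nhds hβ)
  have e3 : ∀ᶠ x in 𝓝 (0 : ℝ), 0 < γ x := cγ.eventually (Ioi_mem_nhds hγ0)
  have e4 : ∀ᶠ x in 𝓝 (0 : ℝ), γ x < 1 := cγ.eventually (Iio_mem_nhds hγ1)
  filter_upwards [hev, e1, e2, e3, e4, hM] with x h1 h2 h3 h4 h5 h6
  have hsim := sim_stmt κ S T hS hT (α x) (β x) (γ x) h2 h3 h4 h5
  obtain ⟨t1, t2⟩ := trp (Mt_herm hS.1 hT.1 (α x) (β x) (γ x)) (p := p) hρ0 hρc h1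
  rw [← h6]
  refine ⟨fun z hz => ?_, ?_⟩
  · rw [(hsim z).1]
    exact t1 z hz
  · unfold Hp
    rw [t2]
    congr 1
    refine circleIntegral.integral_congr hρ0.le fun z hz => ?_
    have hz1 := (hsim z).2 (by rw [(hsim z).1]; exact t1 z hz)
    simp only [hz1]

lemma cont_res {M : Matrix m m ℂ} {s : Set ℂ}
    (h : ∀ z ∈ s, (z • (1 : Matrix m m ℂ) - M).det ≠ 0) :
    ContinuousOn (fun z : ℂ => (z • (1 : Matrix m m ℂ) - M)⁻¹) s := by
  have hc : Continuous fun z : ℂ => z • (1 : Matrix m m ℂ) - M :=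
    (continuous_id.smul continuous_const).sub continuous_const
  have e : (fun z : ℂ => (z • (1 : Matrix m m ℂ) - M)⁻¹) =
      fun z : ℂ => ((z • (1 : Matrix m m ℂ) - M).det)⁻¹ • (z • (1 : Matrix m m ℂ) - M).adjugate := by
    funext z
    rw [Matrix.inv_def, Ring.inverse_eq_inv']
  rw [e]
  exact (hc.matrix_det.continuousOn.inv₀ h).smul hc.matrix_adjugate.continuousOn

lemma cpow_cont {c ρ : ℝ} (hρc : ρ < c) (q : ℂ) :
    ContinuousOn (fun z : ℂ => z ^ q) (Metric.sphere (c : ℂ) ρ) := by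
  intro z hz
  rw [mem_sphere_iff_norm] at hz
  have hslit : z ∈ Complex.slitPlane := by
    left
    have h1 : |(z - (c : ℂ)).re| ≤ ‖z - (c : ℂ)‖ := Complex.abs_re_le_norm _
    have h2 : (z - (c : ℂ)).re = z.re - c := by simp
    rw [h2] at h1
    have := neg_abs_le (z.re - c)
    linarith
  exact ((differentiableAt_id).cpow_const hslit).continuousAt.continuousWithinAt

lemma integrable_RN {c ρ : ℝ} (hρ : 0 < ρ) (hρc : ρ < c) (q : ℂ) {M : Matrix m m ℂ}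
    (h : ∀ z ∈ Metric.sphere (c : ℂ) ρ, (z • (1 : Matrix m m ℂ) - M).det ≠ 0) (N : Matrix m m ℂ) :
    CircleIntegrable (fun z : ℂ => z ^ q * ((z • (1 : Matrix m m ℂ) - M)⁻¹ * N *
      ((z • (1 : Matrix m m ℂ) - M)⁻¹ * N)).trace) (c : ℂ) ρ := by
  apply ContinuousOn.circleIntegrable hρ.le
  refine (cpow_cont hρc q).mul ?_
  have h1 : ContinuousOn (fun z : ℂ => (z • (1 : Matrix m m ℂ) - M)⁻¹ * N)
      (Metric.sphere (c : ℂ) ρ) := (cont_res h).mul continuousOn_const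
  have ht : Continuous (fun X : Matrix m m ℂ => X.trace) := continuous_id.matrix_trace
  exact ht.comp_continuousOn (h1.mul h1)

section flip

/-- `σ_y ⊗ 1` -/
noncomputable def JJ (κ : Type) [DecidableEq κ] : Matrix (Fin 2 × κ) (Fin 2 × κ) ℂ :=
  (!![0, -Complex.I; Complex.I, 0] : Matrix (Fin 2) (Fin 2) ℂ) ⊗ₖ (1 : Matrix κ κ ℂ)

lemma JJ_sq : JJ κ * JJ κ = 1 := by
  unfold JJ
  rw [← Matrix.mul_kronecker_mul, Matrix.mul_one, ← Matrix.one_kronecker_one]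
  congr 1
  ext i j
  fin_cases i <;> fin_cases j <;> simp

lemma JJ_star : (JJ κ)ᴴ = JJ κ := by
  unfold JJ
  rw [Matrix.conjTranspose_kronecker, Matrix.conjTranspose_one]
  congr 1
  ext i j
  fin_cases i <;> fin_cases j <;> simp [Matrix.conjTranspose_apply]

lemma flp_eq (X : Matrix (Fin 2 × κ) (Fin 2 × κ) ℂ) : flp X = JJ κ * X * JJ κ := rfl

lemma flp_charpoly (X : Matrix (Fin 2 × κ) (Fin 2 × κ) ℂ) : (flp X).charpoly = X.charpoly := by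
  rw [flp_eq, Matrix.mul_assoc, Matrix.charpoly_mul_comm, Matrix.mul_assoc, JJ_sq, Matrix.mul_one]

lemma flp_posDef {X : Matrix (Fin 2 × κ) (Fin 2 × κ) ℂ} (hX : X.PosDef) : (flp X).PosDef := by
  have h1 : (flp X).PosSemidef := by
    rw [flp_eq]
    have := hX.posSemidef.conjTranspose_mul_mul_same (JJ κ)
    rwa [JJ_star] at this
  rw [h1.posDef_iff_det_ne_zero, flp_eq, Matrix.det_mul, Matrix.det_mul]
  have hJ : (JJ κ).det * (JJ κ).det = 1 := by rw [← Matrix.det_mul, JJ_sq, Matrix.det_one]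
  have hX0 := (hX.posSemidef.posDef_iff_det_ne_zero).1 hX
  have e : (JJ κ).det * X.det * (JJ κ).det = X.det * ((JJ κ).det * (JJ κ).det) := by ring
  rw [e, hJ, mul_one]
  exact hX0

lemma flp_eig {X : Matrix (Fin 2 × κ) (Fin 2 × κ) ℂ} (hX : X.IsHermitian)
    (hF : (flp X).IsHermitian) (i : Fin 2 × κ) : ∃ j, hF.eigenvalues i = hX.eigenvalues j := by
  have h1 := hX.roots_charpoly_eq_eigenvalues
  have h2 := hF.roots_charpoly_eq_eigenvalues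
  rw [flp_charpoly, h1] at h2
  have h3 : ((hF.eigenvalues i : ℝ) : ℂ) ∈
      Multiset.map ((fun x : ℝ => (x : ℂ)) ∘ hX.eigenvalues) Finset.univ.val := by
    have : ((hF.eigenvalues i : ℝ) : ℂ) ∈
        Multiset.map ((fun x : ℝ => (x : ℂ)) ∘ hF.eigenvalues) Finset.univ.val :=
      Multiset.mem_map.2 ⟨i, Finset.mem_univ_val i, rfl⟩
    exact h2 ▸ this
  obtain ⟨j, -, hj⟩ := Multiset.mem_map.1 h3
  exact ⟨j, (Complex.ofReal_injective hj).symm⟩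

lemma flp_res {M : Matrix (Fin 2 × κ) (Fin 2 × κ) ℂ} {z : ℂ}
    (hz : (z • (1 : Matrix (Fin 2 × κ) (Fin 2 × κ) ℂ) - M).det ≠ 0) :
    flp (M * (z • (1 : Matrix (Fin 2 × κ) (Fin 2 × κ) ℂ) - M)⁻¹) =
      flp M * (z • (1 : Matrix (Fin 2 × κ) (Fin 2 × κ) ℂ) - flp M)⁻¹ := by
  set R := (z • (1 : Matrix (Fin 2 × κ) (Fin 2 × κ) ℂ) - M)⁻¹ with hR
  have hmul : (z • (1 : Matrix (Fin 2 × κ) (Fin 2 × κ) ℂ) - M) * R = 1 :=
    Matrix.mul_nonsing_inv _ (isUnit_iff_ne_zero.2 hz)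
  have e1 : z • (1 : Matrix (Fin 2 × κ) (Fin 2 × κ) ℂ) - flp M =
      JJ κ * (z • (1 : Matrix (Fin 2 × κ) (Fin 2 × κ) ℂ) - M) * JJ κ := by
    rw [flp_eq, Matrix.mul_sub, Matrix.sub_mul, Matrix.mul_smul, Matrix.mul_one, Matrix.smul_mul,
      JJ_sq]
  have e2 : (z • (1 : Matrix (Fin 2 × κ) (Fin 2 × κ) ℂ) - flp M)⁻¹ = JJ κ * R * JJ κ := by
    apply Matrix.inv_eq_right_inv
    rw [e1]
    calc JJ κ * (z • (1 : Matrix (Fin 2 × κ) (Fin 2 × κ) ℂ) - M) * JJ κ * (JJ κ * R * JJ κ)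
        = JJ κ * (z • (1 : Matrix (Fin 2 × κ) (Fin 2 × κ) ℂ) - M) * (JJ κ * JJ κ) * R * JJ κ := by
          simp only [Matrix.mul_assoc]
      _ = JJ κ * ((z • (1 : Matrix (Fin 2 × κ) (Fin 2 × κ) ℂ) - M) * R) * JJ κ := by
          rw [JJ_sq, Matrix.mul_one]; simp only [Matrix.mul_assoc]
      _ = 1 := by rw [hmul, Matrix.mul_one, JJ_sq]
  rw [e2, flp_eq, flp_eq]
  calc JJ κ * (M * R) * JJ κ = JJ κ * M * R * JJ κ := by simp only [Matrix.mul_assoc]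
    _ = JJ κ * M * (JJ κ * JJ κ) * R * JJ κ := by rw [JJ_sq, Matrix.mul_one]
    _ = JJ κ * M * JJ κ * (JJ κ * R * JJ κ) := by simp only [Matrix.mul_assoc]

end flip

lemma Maf_det_ne {S T : Matrix κ κ ℂ} (hS : S.PosDef) (hT : T.PosDef) {α β γ : ℝ} (hα : 0 < α)
    (hβ : 0 < β) (hγ1 : γ < 1) : (Maf α β (γ * (α * β)) S T).det ≠ 0 := by
  have hSd : S.det ≠ 0 := (hS.posSemidef.posDef_iff_det_ne_zero).1 hS
  have hTd : T.det ≠ 0 := (hT.posSemidef.posDef_iff_det_ne_zero).1 hT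
  have hα' : (α : ℂ) ≠ 0 := by exact_mod_cast hα.ne'
  have hA : IsUnit ((α : ℂ) • S).det := by
    rw [Matrix.det_smul]
    exact isUnit_iff_ne_zero.2 (mul_ne_zero (pow_ne_zero _ hα') hSd)
  let _ : Invertible ((α : ℂ) • S) := Matrix.invertibleOfIsUnitDet _ hA
  have hSu : IsUnit S.det := isUnit_iff_ne_zero.2 hSd
  have e : ((β : ℂ) • T) - S * ⅟((α : ℂ) • S) * (((γ * (α * β) : ℝ) : ℂ) • T) =
      ((β * (1 - γ) : ℝ) : ℂ) • T := by
    rw [Matrix.invOf_eq_nonsing_inv]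
    have e1 : ((α : ℂ) • S)⁻¹ = (α : ℂ)⁻¹ • S⁻¹ := by
      apply Matrix.inv_eq_right_inv
      rw [Matrix.smul_mul, Matrix.mul_smul, smul_smul, mul_inv_cancel₀ hα', one_smul,
        Matrix.mul_nonsing_inv _ hSu]
    have e2 : S * ((α : ℂ)⁻¹ • S⁻¹) = (α : ℂ)⁻¹ • (1 : Matrix κ κ ℂ) := by
      rw [Matrix.mul_smul, Matrix.mul_nonsing_inv _ hSu]
    rw [e1, e2, Matrix.smul_mul, Matrix.one_mul, smul_smul, ← sub_smul]
    congr 1
    push_cast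
    field_simp
  unfold Maf
  rw [Matrix.det_fromBlocks₁₁, e, Matrix.det_smul (A := T)]
  have hb : ((β * (1 - γ) : ℝ) : ℂ) ≠ 0 := by
    have : β * (1 - γ) ≠ 0 := (mul_pos hβ (by linarith)).ne'
    exact_mod_cast this
  exact mul_ne_zero hA.ne_zero (mul_ne_zero (pow_ne_zero _ hb) hTd)

lemma Mt_posDef {S T : Matrix κ κ ℂ} (hS : S.PosDef) (hT : T.PosDef) {α β γ : ℝ} (hα : 0 < α)
    (hβ : 0 < β) (hγ0 : 0 < γ) (hγ1 : γ < 1) : (Mt α β γ S T).PosDef := by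
  have h1 : (Mt α β γ S T).PosSemidef :=
    Mt_psd hα.le hβ.le hγ0.le hγ1.le hS.posSemidef hT.posSemidef
  rw [h1.posDef_iff_det_ne_zero]
  intro h0
  have hs := (sim_stmt κ S T hS hT α β γ hα hβ hγ0 hγ1 0).1
  rw [zero_smul, zero_sub, zero_smul, zero_sub, Matrix.det_neg, Matrix.det_neg, h0, mul_zero] at hs
  have := Maf_det_ne hS hT hα hβ hγ1
  rcases mul_eq_zero.1 hs with h | h
  · exact absurd h (pow_ne_zero _ (by norm_num))
  · exact this h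

/-- the operator inequality (helper69's `OPStmt`, helper54's `OPCurves`) -/
theorem opCurves (hCIM : CIM0) {p : ℝ} (hp : 3 < p) : OPCurves p := by
  intro κ _ _ S T hS hT a γ ha0 ha1 hγ0 hγ1
  have ha1' : 0 < 1 - a := by linarith
  have hMpd := Mt_posDef hS hT ha0 ha1' hγ0 hγ1
  obtain ⟨c, ρ', ρ, hρ0, hρ, hρc, hcirc⟩ := exists_circle hMpd
  -- the three curves
  have h1sq : ContinuousAt (fun x : ℝ => γ / (1 - x ^ 2)) 0 :=
    ContinuousAt.div (by fun_prop) (by fun_prop) (by simp)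
  have h2sq : ContinuousAt (fun x : ℝ => γ / (1 + x) ^ 2) 0 :=
    ContinuousAt.div (by fun_prop) (by fun_prop) (by simp)
  have pos1 : ∀ᶠ x in 𝓝 (0 : ℝ), 0 < 1 + x := by
    have hc : ContinuousAt (fun x : ℝ => 1 + x) 0 := by fun_prop
    exact hc.eventually (Ioi_mem_nhds (by simp))
  have pos2 : ∀ᶠ x in 𝓝 (0 : ℝ), 0 < 1 - x := by
    have hc : ContinuousAt (fun x : ℝ => 1 - x) 0 := by fun_prop
    exact hc.eventually (Ioi_mem_nhds (by simp))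
  set M0 := Maf a (1 - a) (γ * (a * (1 - a))) S T with hM0
  set N1 : Matrix (κ ⊕ κ) (κ ⊕ κ) ℂ :=
    Matrix.fromBlocks ((a : ℂ) • S) 0 0 (-(((1 - a : ℝ) : ℂ) • T)) with hN1
  set N2 : Matrix (κ ⊕ κ) (κ ⊕ κ) ℂ :=
    Matrix.fromBlocks ((a : ℂ) • S) 0 0 (((1 - a : ℝ) : ℂ) • T) with hN2
  set N3 : Matrix (κ ⊕ κ) (κ ⊕ κ) ℂ := Matrix.fromBlocks 0 T 0 0 with hN3
  obtain ⟨D1, c1, d1⟩ := curve hCIM hS hT p hρ0 hρ hρc (α := fun x => a * (1 + x))
    (β := fun x => (1 - a) * (1 - x)) (γ := fun x => γ / (1 - x ^ 2))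
    (by fun_prop) (by fun_prop) h1sq (by simpa using ha0) (by simpa using ha1') (by simpa using hγ0)
    (by simpa using hγ1) (by
      intro i
      have e : Mt (a * (1 + 0)) ((1 - a) * (1 - 0)) (γ / (1 - 0 ^ 2)) S T = Mt a (1 - a) γ S T := by
        simp
      have hh : ∀ (M M' : Matrix (Fin 2 × κ) (Fin 2 × κ) ℂ) (h : M.IsHermitian) (h' : M'.IsHermitian)
          (_ : M = M') (i : Fin 2 × κ), h.eigenvalues i = h'.eigenvalues i := by
        intro M M' h h' he i; subst he; rfl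
      rw [hh _ _ _ hMpd.1 e i]
      exact hcirc i) M0 N1 (by
      filter_upwards [pos1, pos2] with x h1 h2
      have hg : γ / (1 - x ^ 2) * (a * (1 + x) * ((1 - a) * (1 - x))) = γ * (a * (1 - a)) := by
        have : 1 - x ^ 2 = (1 + x) * (1 - x) := by ring
        rw [this]
        field_simp
      rw [hg, hM0, hN1]
      unfold Maf
      rw [Matrix.fromBlocks_smul, Matrix.fromBlocks_add]
      push_cast
      congr 1
      · module
      · simp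
      · simp
      · module)
  obtain ⟨D2, c2, d2⟩ := curve hCIM hS hT p hρ0 hρ hρc (α := fun x => a * (1 + x))
    (β := fun x => (1 - a) * (1 + x)) (γ := fun x => γ / (1 + x) ^ 2)
    (by fun_prop) (by fun_prop) h2sq (by simpa using ha0) (by simpa using ha1') (by simpa using hγ0)
    (by simpa using hγ1) (by
      intro i
      have e : Mt (a * (1 + 0)) ((1 - a) * (1 + 0)) (γ / (1 + 0) ^ 2) S T = Mt a (1 - a) γ S T := by
        simp
      have hh : ∀ (M M' : Matrix (Fin 2 × κ) (Fin 2 × κ) ℂ) (h : M.IsHermitian) (h' : M'.IsHermitian)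
          (_ : M = M') (i : Fin 2 × κ), h.eigenvalues i = h'.eigenvalues i := by
        intro M M' h h' he i; subst he; rfl
      rw [hh _ _ _ hMpd.1 e i]
      exact hcirc i) M0 N2 (by
      filter_upwards [pos1] with x h1
      have hg : γ / (1 + x) ^ 2 * (a * (1 + x) * ((1 - a) * (1 + x))) = γ * (a * (1 - a)) := by
        field_simp
      rw [hg, hM0, hN2]
      unfold Maf
      rw [Matrix.fromBlocks_smul, Matrix.fromBlocks_add]
      push_cast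
      congr 1
      · module
      · simp
      · simp
      · module)
  obtain ⟨D3, c3, d3⟩ := curve hCIM hS hT p hρ0 hρ hρc (α := fun _ => a)
    (β := fun _ => 1 - a) (γ := fun y => γ + y / (a * (1 - a)))
    (by fun_prop) (by fun_prop) (by fun_prop) (by simpa using ha0) (by simpa using ha1')
    (by simpa using hγ0) (by simpa using hγ1) (by
      intro i
      have e : Mt a (1 - a) (γ + 0 / (a * (1 - a))) S T = Mt a (1 - a) γ S T := by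
        simp
      have hh : ∀ (M M' : Matrix (Fin 2 × κ) (Fin 2 × κ) ℂ) (h : M.IsHermitian) (h' : M'.IsHermitian)
          (_ : M = M') (i : Fin 2 × κ), h.eigenvalues i = h'.eigenvalues i := by
        intro M M' h h' he i; subst he; rfl
      rw [hh _ _ _ hMpd.1 e i]
      exact hcirc i) M0 N3 (by
      refine Eventually.of_forall fun x => ?_
      have hg : (γ + x / (a * (1 - a))) * (a * (1 - a)) = γ * (a * (1 - a)) + x := by
        field_simp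
      rw [hg, hM0, hN3]
      unfold Maf
      rw [Matrix.fromBlocks_smul, Matrix.fromBlocks_add]
      push_cast
      congr 1
      · simp
      · module
      · simp
      · simp)
  refine ⟨D1, D2, D3, c1, c2, c3, ?_⟩
  -- the operator identity
  obtain ⟨C, hC, halg⟩ := _root_.Lib_helper21.QS.alg κ S T hS hT a (1 - a) γ ha0 ha1' hγ0 hγ1
  have hlt : ∀ i, |hMpd.1.eigenvalues i - c| < ρ := fun i => lt_of_le_of_lt (hcirc i) hρ
  have hdetM : ∀ z ∈ Metric.sphere (c : ℂ) ρ,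
      (z • (1 : Matrix (Fin 2 × κ) (Fin 2 × κ) ℂ) - Mt a (1 - a) γ S T).det ≠ 0 :=
    (trp hMpd.1 (p := p) hρ0 hρc hlt).1
  have hdet0 : ∀ z ∈ Metric.sphere (c : ℂ) ρ,
      (z • (1 : Matrix (κ ⊕ κ) (κ ⊕ κ) ℂ) - M0).det ≠ 0 := by
    intro z hz
    rw [hM0, (sim_stmt κ S T hS hT a (1 - a) γ ha0 ha1' hγ0 hγ1 z).1]
    exact hdetM z hz
  set Mz : Matrix (Fin 2 × κ) (Fin 2 × κ) ℂ := Mt a (1 - a) γ S T with hMz
  set K : ℂ → ℂ := fun z => -(((Mz * (z • (1 : Matrix (Fin 2 × κ) (Fin 2 × κ) ℂ) - Mz)⁻¹) *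
      (flp Mz * (z • (1 : Matrix (Fin 2 × κ) (Fin 2 × κ) ℂ) - flp Mz)⁻¹) -
      (flp Mz * (z • (1 : Matrix (Fin 2 × κ) (Fin 2 × κ) ℂ) - flp Mz)⁻¹) *
      (Mz * (z • (1 : Matrix (Fin 2 × κ) (Fin 2 × κ) ℂ) - Mz)⁻¹)) *
      ((Mz * (z • (1 : Matrix (Fin 2 × κ) (Fin 2 × κ) ℂ) - Mz)⁻¹) *
      (flp Mz * (z • (1 : Matrix (Fin 2 × κ) (Fin 2 × κ) ℂ) - flp Mz)⁻¹) -
      (flp Mz * (z • (1 : Matrix (Fin 2 × κ) (Fin 2 × κ) ℂ) - flp Mz)⁻¹) *
      (Mz * (z • (1 : Matrix (Fin 2 × κ) (Fin 2 × κ) ℂ) - Mz)⁻¹))).trace with hK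
  have i1 := integrable_RN hρ0 hρc ((p - 1 : ℝ) : ℂ) hdet0 N1
  have i2 := integrable_RN hρ0 hρc ((p - 1 : ℝ) : ℂ) hdet0 N2
  have i3 := integrable_RN hρ0 hρc ((p - 1 : ℝ) : ℂ) hdet0 N3
  set w : ℂ := 4 * (a : ℂ) * ((1 - a : ℝ) : ℂ) * (γ * (a * ((1 - a : ℝ) : ℂ))) with hw
  have hkey : ((D2 - D1 - 4 * (a * (1 - a)) * (γ * (a * (1 - a))) * D3 : ℝ) : ℂ) =
      p * (C : ℂ) * ((2 * π * Complex.I : ℂ)⁻¹ * ∮ z in C(c, ρ), z ^ ((p - 1 : ℝ) : ℂ) * K z) := by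
    have e0 : ((D2 - D1 - 4 * (a * (1 - a)) * (γ * (a * (1 - a))) * D3 : ℝ) : ℂ) =
        (D2 : ℂ) - D1 - w * D3 := by
      rw [hw]; push_cast; ring
    rw [e0, d1, d2, d3]
    have e1 : ∀ A B E : ℂ, p * (2 * π * Complex.I : ℂ)⁻¹ * A - p * (2 * π * Complex.I : ℂ)⁻¹ * B -
        w * (p * (2 * π * Complex.I : ℂ)⁻¹ * E) = p * (2 * π * Complex.I : ℂ)⁻¹ * (A - B - w * E) := by
      intro A B E; ring
    set F1 : ℂ → ℂ := fun z => z ^ ((p - 1 : ℝ) : ℂ) *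
      ((z • (1 : Matrix (κ ⊕ κ) (κ ⊕ κ) ℂ) - M0)⁻¹ * N1 *
        ((z • (1 : Matrix (κ ⊕ κ) (κ ⊕ κ) ℂ) - M0)⁻¹ * N1)).trace with hF1
    set F2 : ℂ → ℂ := fun z => z ^ ((p - 1 : ℝ) : ℂ) *
      ((z • (1 : Matrix (κ ⊕ κ) (κ ⊕ κ) ℂ) - M0)⁻¹ * N2 *
        ((z • (1 : Matrix (κ ⊕ κ) (κ ⊕ κ) ℂ) - M0)⁻¹ * N2)).trace with hF2
    set F3 : ℂ → ℂ := fun z => z ^ ((p - 1 : ℝ) : ℂ) *
      ((z • (1 : Matrix (κ ⊕ κ) (κ ⊕ κ) ℂ) - M0)⁻¹ * N3 *
        ((z • (1 : Matrix (κ ⊕ κ) (κ ⊕ κ) ℂ) - M0)⁻¹ * N3)).trace with hF3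
    have i21 : CircleIntegrable (fun z => F2 z - F1 z) (c : ℂ) ρ := i2.sub i1
    have i3w : CircleIntegrable (fun z => w * F3 z) (c : ℂ) ρ := i3.const_smul
    have s1 : (∮ z in C((c : ℂ), ρ), F2 z) - (∮ z in C((c : ℂ), ρ), F1 z) -
        w * (∮ z in C((c : ℂ), ρ), F3 z) = ∮ z in C((c : ℂ), ρ), (F2 z - F1 z) - w * F3 z := by
      rw [circleIntegral.integral_sub i21 i3w, circleIntegral.integral_sub i2 i1,
        circleIntegral.integral_const_mul]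
    rw [e1, s1]
    have e2 : p * (C : ℂ) * ((2 * π * Complex.I : ℂ)⁻¹ * ∮ z in C(c, ρ), z ^ ((p - 1 : ℝ) : ℂ) * K z) =
        p * (2 * π * Complex.I : ℂ)⁻¹ * ∮ z in C(c, ρ), (C : ℂ) * (z ^ ((p - 1 : ℝ) : ℂ) * K z) := by
      rw [circleIntegral.integral_const_mul]; ring
    rw [e2]
    congr 1
    refine circleIntegral.integral_congr hρ0.le fun z hz => ?_
    have hz1 := (halg z (hdetM z hz)).1
    simp only [flp_res (hdetM z hz)] at hz1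
    simp only [hF1, hF2, hF3, hK]
    linear_combination (z ^ ((p - 1 : ℝ) : ℂ)) * hz1
  have hF := flp_posDef hMpd
  have hFe : ∀ i, |hF.1.eigenvalues i - c| < ρ := by
    intro i
    obtain ⟨j, hj⟩ := flp_eig hMpd.1 hF.1 i
    rw [hj]
    exact hlt j
  obtain ⟨e, he, hs⟩ := Pool.Agent.QS.s1c_stmt p hp (Fin 2 × κ) Mz (flp Mz) hMpd hF c ρ hρ0 hρc hlt hFe
  constructor
  · have hs' : (2 * π * Complex.I : ℂ)⁻¹ * (∮ z in C(c, ρ), z ^ ((p - 1 : ℝ) : ℂ) * K z) = (e : ℂ) := by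
      rw [← hs]
    rw [hs'] at hkey
    have h2 : D2 - D1 - 4 * (a * (1 - a)) * (γ * (a * (1 - a))) * D3 = p * C * e := by
      exact_mod_cast hkey
    rw [h2]
    have : 0 < p := by linarith
    positivity
  · intro hcomm
    have hK0 : (∮ z in C(c, ρ), z ^ ((p - 1 : ℝ) : ℂ) * K z) = ∮ z in C(c, ρ), (0 : ℂ) := by
      refine circleIntegral.integral_congr hρ0.le fun z hz => ?_
      have hz2 := (halg z (hdetM z hz)).2 hcomm
      rw [flp_res (hdetM z hz)] at hz2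
      simp only [hK]
      rw [hz2, sub_self]
      simp
    have h0 : (∮ z in C((c : ℂ), ρ), (0 : ℂ)) = 0 := by
      simp [circleIntegral]
    rw [hK0, h0, mul_zero, mul_zero] at hkey
    exact_mod_cast hkey

end Pool.Agent.Lib_helper19.QS
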