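import Pool.Agent.Lib_helper19.QS.Conv

/-!
# MP_859019, one side a qubit pair: `Tr M^p` as a contour integral of the resolvent
-/

set_option autoImplicit false

open scoped BigOperators ComplexOrder Kronecker MatrixOrder Topology Real
open MeasureTheory Set Matrix Filter

namespace Pool.Agent.Lib_helper19.QS

open Pool.Agent.RC

variable {m : Type} [Fintype m] [DecidableEq m]

lemma sphere_ne {c ρ : ℝ} {z : ℂ} (hz : z ∈ Metric.sphere (c : ℂ) ρ) {x : ℝ} (hx : |x - c| < ρ) :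
    z ≠ (x : ℂ) := by
  intro h0
  rw [h0, mem_sphere_iff_norm, ← Complex.ofReal_sub, Complex.norm_real, Real.norm_eq_abs] at hz
  linarith

/-- spectral form of the resolvent -/
lemma resolvent_spec {M : Matrix m m ℂ} (hM : M.IsHermitian) {z : ℂ}
    (hz : ∀ i, z ≠ (hM.eigenvalues i : ℂ)) :
    (z • (1 : Matrix m m ℂ) - M).det ≠ 0 ∧
      ((z • (1 : Matrix m m ℂ) - M)⁻¹).trace = ∑ i, (z - (hM.eigenvalues i : ℂ))⁻¹ := by
  set V : Matrix m m ℂ := (hM.eigenvectorUnitary : Matrix m m ℂ) with hV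
  have hVV : Vᴴ * V = 1 := (mem_unitaryGroup_iff').1 hM.eigenvectorUnitary.2
  have hVV' : V * Vᴴ = 1 := (mem_unitaryGroup_iff).1 hM.eigenvectorUnitary.2
  have hMs : M = V * diagonal (fun k => (hM.eigenvalues k : ℂ)) * Vᴴ := by
    have := hM.spectral_theorem
    rw [Unitary.conjStarAlgAut_apply] at this
    exact this
  have h1 : z • (1 : Matrix m m ℂ) - M = V * diagonal (fun k => z - (hM.eigenvalues k : ℂ)) * Vᴴ := by
    have e : diagonal (fun k => z - (hM.eigenvalues k : ℂ)) =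
        z • (1 : Matrix m m ℂ) - diagonal (fun k => (hM.eigenvalues k : ℂ)) := by
      ext i j
      by_cases h : i = j
      · subst h; simp
      · simp [h]
    rw [e, Matrix.mul_sub, Matrix.sub_mul, ← hMs, Matrix.mul_smul, Matrix.mul_one, Matrix.smul_mul,
      hVV']
  have h2 : (z • (1 : Matrix m m ℂ) - M) *
      (V * diagonal (fun k => (z - (hM.eigenvalues k : ℂ))⁻¹) * Vᴴ) = 1 := by
    rw [h1]
    calc V * diagonal (fun k => z - (hM.eigenvalues k : ℂ)) * Vᴴ *
          (V * diagonal (fun k => (z - (hM.eigenvalues k : ℂ))⁻¹) * Vᴴ)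
        = V * (diagonal (fun k => z - (hM.eigenvalues k : ℂ)) * (Vᴴ * V) *
            diagonal (fun k => (z - (hM.eigenvalues k : ℂ))⁻¹)) * Vᴴ := by
          simp only [Matrix.mul_assoc]
      _ = V * 1 * Vᴴ := by
          rw [hVV, Matrix.mul_one, Matrix.diagonal_mul_diagonal]
          congr 2
          rw [← Matrix.diagonal_one]
          congr 1; ext k
          exact mul_inv_cancel₀ (sub_ne_zero.2 (hz k))
      _ = 1 := by rw [Matrix.mul_one, hVV']
  have h3 := Matrix.inv_eq_right_inv h2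
  refine ⟨?_, ?_⟩
  · intro h0
    have := congrArg Matrix.det h2
    rw [Matrix.det_mul, h0, zero_mul, Matrix.det_one] at this
    exact zero_ne_one this
  · rw [h3, Matrix.trace_mul_comm, ← Matrix.mul_assoc, hVV, Matrix.one_mul, Matrix.trace_diagonal]

lemma cauchy_one {p c ρ x : ℝ} (hρ : 0 < ρ) (hρc : ρ < c) (hx : |x - c| < ρ) :
    CircleIntegrable (fun z : ℂ => z ^ (p : ℂ) * (z - (x : ℂ))⁻¹) (c : ℂ) ρ ∧
    ((x ^ p : ℝ) : ℂ) = (2 * π * Complex.I : ℂ)⁻¹ * ∮ z in C((c : ℂ), ρ), z ^ (p : ℂ) * (z - (x : ℂ))⁻¹ := by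
  have hslit : ∀ z : ℂ, z ∈ Metric.closedBall (c : ℂ) ρ → z ∈ Complex.slitPlane := by
    intro z hz
    rw [Metric.mem_closedBall, dist_eq_norm] at hz
    left
    have h1 : |(z - (c : ℂ)).re| ≤ ‖z - (c : ℂ)‖ := Complex.abs_re_le_norm _
    have h2 : (z - (c : ℂ)).re = z.re - c := by simp
    rw [h2] at h1
    have := neg_abs_le (z.re - c)
    linarith
  have hd : ∀ z : ℂ, z ∈ Metric.closedBall (c : ℂ) ρ → DifferentiableAt ℂ (fun z : ℂ => z ^ (p : ℂ)) z :=
    fun z hz => (differentiableAt_id).cpow_const (hslit z hz)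
  have hcont : ContinuousOn (fun z : ℂ => z ^ (p : ℂ)) (Metric.closedBall (c : ℂ) ρ) :=
    fun z hz => (hd z hz).continuousAt.continuousWithinAt
  have hxm : (x : ℂ) ∈ Metric.ball (c : ℂ) ρ := by
    rw [mem_ball_iff_norm, ← Complex.ofReal_sub, Complex.norm_real, Real.norm_eq_abs]
    exact hx
  constructor
  · apply ContinuousOn.circleIntegrable hρ.le
    refine (hcont.mono Metric.sphere_subset_closedBall).mul ?_
    refine ContinuousOn.inv₀ (by fun_prop) ?_
    intro z hz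
    exact sub_ne_zero.2 (sphere_ne hz hx)
  · have hdc : DiffContOnCl ℂ (fun z : ℂ => z ^ (p : ℂ)) (Metric.ball (c : ℂ) ρ) := by
      constructor
      · intro z hz
        exact (hd z (Metric.ball_subset_closedBall hz)).differentiableWithinAt
      · rw [closure_ball _ hρ.ne']
        exact hcont
    have h := hdc.circleIntegral_sub_inv_smul hxm
    have e : (∮ z in C((c : ℂ), ρ), z ^ (p : ℂ) * (z - (x : ℂ))⁻¹) =
        ∮ z in C((c : ℂ), ρ), (z - (x : ℂ))⁻¹ • z ^ (p : ℂ) := by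
      refine circleIntegral.integral_congr hρ.le fun z _ => ?_
      rw [smul_eq_mul, mul_comm]
    have hx0 : 0 < x := by
      have := neg_abs_le (x - c)
      linarith
    rw [e, h, smul_eq_mul, ← mul_assoc, inv_mul_cancel₀ (by
      simp [Real.pi_ne_zero, Complex.I_ne_zero]), one_mul, Complex.ofReal_cpow hx0.le]

/-- `Tr M^p` as a contour integral -/
theorem trp {M : Matrix m m ℂ} (hM : M.IsHermitian) {p c ρ : ℝ} (hρ : 0 < ρ) (hρc : ρ < c)
    (hl : ∀ i, |hM.eigenvalues i - c| < ρ) :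
    (∀ z ∈ Metric.sphere (c : ℂ) ρ, (z • (1 : Matrix m m ℂ) - M).det ≠ 0) ∧
    ((trF (fun x => x ^ p) M : ℝ) : ℂ) = (2 * π * Complex.I : ℂ)⁻¹ * ∮ z in C((c : ℂ), ρ),
      z ^ (p : ℂ) * ((z • (1 : Matrix m m ℂ) - M)⁻¹).trace := by
  have hne : ∀ z ∈ Metric.sphere (c : ℂ) ρ, ∀ i, z ≠ (hM.eigenvalues i : ℂ) :=
    fun z hz i => sphere_ne hz (hl i)
  refine ⟨fun z hz => (resolvent_spec hM (hne z hz)).1, ?_⟩
  have e : (∮ z in C((c : ℂ), ρ), z ^ (p : ℂ) * ((z • (1 : Matrix m m ℂ) - M)⁻¹).trace) =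
      ∮ z in C((c : ℂ), ρ), ∑ i, z ^ (p : ℂ) * (z - (hM.eigenvalues i : ℂ))⁻¹ := by
    refine circleIntegral.integral_congr hρ.le fun z hz => ?_
    rw [(resolvent_spec hM (hne z hz)).2, Finset.mul_sum]
  rw [e, circleIntegral.integral_fun_sum]
  · unfold trF
    rw [dif_pos hM, Finset.mul_sum]
    push_cast
    refine Finset.sum_congr rfl fun i _ => ?_
    have := (cauchy_one (p := p) hρ hρc (hl i)).2
    push_cast at this
    exact this
  · intro i _
    exact (cauchy_one (p := p) hρ hρc (hl i)).1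

end Pool.Agent.Lib_helper19.QS
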